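import Pool.Agent.H74R3.PI

open MeasureTheory Set Filter Topology
open scoped ENNReal

namespace Pool.Agent.H74R3

variable {X : Type*} [MeasurableSpace X] [StandardBorelSpace X] {μ : Measure X}

/-- an uncountable null Borel subset -/
theorem exists_uncountable_null [SFinite μ] {C : Set X} (hC : MeasurableSet C)
    (hunc : ¬ C.Countable) : ∃ N ⊆ C, MeasurableSet N ∧ μ N = 0 ∧ ¬ N.Countable := by
  have : StandardBorelSpace C := hC.standardBorel
  have h1 : ¬ Countable C := fun h => hunc (countable_coe_iff.1 h)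
  have h2 : ¬ Countable (ℝ × ℝ) := by
    intro h
    have : Countable ℝ := Function.Injective.countable (f := fun x : ℝ => (x, (0 : ℝ)))
      (fun a b hab => (Prod.mk.inj hab).1)
    exact not_countable this
  let e : C ≃ᵐ ℝ × ℝ := PolishSpace.measurableEquivOfNotCountable h1 h2
  let N : ℝ → Set X := fun t => (fun c : C => (c : X)) '' (e ⁻¹' (Prod.fst ⁻¹' {t}))
  have hNm : ∀ t, MeasurableSet (N t) := fun t =>
    (MeasurableEmbedding.subtype_coe hC).measurableSet_image.2
      (e.measurable (measurable_fst (measurableSet_singleton t)))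
  have hNd : Pairwise (Function.onFun Disjoint N) := by
    intro s t hst
    rw [Function.onFun, disjoint_left]
    rintro x ⟨c, hc, rfl⟩ ⟨d, hd, hcd⟩
    have : d = c := Subtype.ext hcd
    subst this
    exact hst (by
      have e1 : (e d).1 = s := hc
      have e2 : (e d).1 = t := hd
      rw [← e1, ← e2])
  have hcount := Measure.countable_meas_pos_of_disjoint_iUnion (μ := μ) hNm hNd
  have : ∃ t, ¬ (0 < μ (N t)) := by
    by_contra hcon
    push Not at hcon
    have : {i | 0 < μ (N i)} = univ := by
      ext t; simp [hcon t]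
    rw [this] at hcount
    exact not_countable (countable_univ_iff.1 hcount)
  obtain ⟨t, ht⟩ := this
  refine ⟨N t, ?_, hNm t, nonpos_iff_eq_zero.1 (not_lt.1 ht), ?_⟩
  · rintro x ⟨c, _, rfl⟩
    exact c.2
  · intro hcnt
    have : (range (fun u : ℝ => ((e.symm (t, u) : C) : X))).Countable := by
      apply hcnt.mono
      rintro x ⟨u, rfl⟩
      exact ⟨_, by simp, rfl⟩
    have h3 : Function.Injective (fun u : ℝ => ((e.symm (t, u) : C) : X)) := by
      intro u v huv
      have := e.symm.injective (Subtype.ext huv)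
      exact (Prod.mk.inj this).2
    rw [← image_univ] at this
    have := (countable_of_injective_of_countable_image h3.injOn this)
    exact not_countable (countable_univ_iff.1 this)

/-- a partial isomorphism between conull sets extends, mod null sets, to a Borel automorphism -/
theorem exists_equiv_of_isPI [SFinite μ] {C D : Set X} {f g : X → X} (hC : MeasurableSet C)
    (hD : MeasurableSet D) (h : IsPI μ μ C D f g) (hCn : μ Cᶜ = 0) (hDn : μ Dᶜ = 0)
    (hunc : ¬ C.Countable) :
    ∃ R : X ≃ᵐ X, MeasurePreserving R μ μ ∧ ∀ᵐ x ∂μ, R x = f x := by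
  classical
  obtain ⟨N, hNC, hNm, hN0, hNunc⟩ := exists_uncountable_null (μ := μ) hC hunc
  set C1 := C \ N with hC1
  set D1 := D ∩ g ⁻¹' C1 with hD1
  have hC1m : MeasurableSet C1 := hC.diff hNm
  have hD1m : MeasurableSet D1 := hD.inter (h.gm hC1m)
  have h1 : IsPI μ μ C1 D1 f g := h.restrict sdiff_subset
  have hC1n : μ C1ᶜ = 0 := by
    rw [hC1, sdiff_eq, compl_inter, compl_compl]
    exact measure_union_null hCn hN0
  have hD1n : μ D1ᶜ = 0 := by
    have e1 : D1ᶜ ⊆ Dᶜ ∪ (D ∩ g ⁻¹' (C ∩ N)) := by
      intro y hy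
      by_cases hyD : y ∈ D
      · right
        refine ⟨hyD, h.gD hyD, ?_⟩
        by_contra hcon
        exact hy ⟨hyD, h.gD hyD, hcon⟩
      · left; exact hyD
    apply measure_mono_null e1
    apply measure_union_null hDn
    rw [h.measure_restrict hD inter_subset_left (hC.inter hNm)]
    exact measure_mono_null inter_subset_right hN0
  -- complements are uncountable
  have hc1 : ¬ Countable (C1ᶜ : Set X) := by
    intro hcon
    apply hNunc
    have hsub : N ⊆ C1ᶜ := fun x hx hx1 => hx1.2 hx
    exact Set.Countable.mono hsub (countable_coe_iff.1 hcon)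
  have hd1 : ¬ Countable (D1ᶜ : Set X) := by
    intro hcon
    apply hNunc
    have hcc : (D1ᶜ : Set X).Countable := countable_coe_iff.1 hcon
    have h2 : (f '' N).Countable := by
      apply hcc.mono
      rintro y ⟨x, hx, rfl⟩ hy
      have := hy.2
      rw [mem_preimage, h.gf x (hNC hx)] at this
      exact this.2 hx
    apply countable_of_injective_of_countable_image _ h2
    intro x hx y hy hxy
    rw [← h.gf x (hNC hx), ← h.gf y (hNC hy), hxy]
  have : StandardBorelSpace (C1ᶜ : Set X) := hC1m.compl.standardBorel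
  have : StandardBorelSpace (D1ᶜ : Set X) := hD1m.compl.standardBorel
  let e2 : (C1ᶜ : Set X) ≃ᵐ (D1ᶜ : Set X) := PolishSpace.measurableEquivOfNotCountable hc1 hd1
  let e1 : C1 ≃ᵐ D1 :=
    { toFun := fun x => ⟨f x, h1.fC x.2⟩
      invFun := fun y => ⟨g y, h1.gD y.2⟩
      left_inv := fun x => Subtype.ext (h1.gf x x.2)
      right_inv := fun y => Subtype.ext (h1.fg y y.2)
      measurable_toFun := (h1.fm.comp measurable_subtype_coe).subtype_mk
      measurable_invFun := (h1.gm.comp measurable_subtype_coe).subtype_mk }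
  let R : X ≃ᵐ X := (MeasurableEquiv.sumCompl hC1m).symm.trans
    ((MeasurableEquiv.sumCongr e1 e2).trans (MeasurableEquiv.sumCompl hD1m))
  have hR1 : ∀ x ∈ C1, R x = f x := by
    intro x hx
    have hs : (MeasurableEquiv.sumCompl hC1m).symm x = Sum.inl ⟨x, hx⟩ := by
      rw [MeasurableEquiv.symm_apply_eq]
      rfl
    change (MeasurableEquiv.sumCompl hD1m) ((MeasurableEquiv.sumCongr e1 e2)
      ((MeasurableEquiv.sumCompl hC1m).symm x)) = f x
    rw [hs]
    rfl
  refine ⟨R, ⟨R.measurable, ?_⟩, ?_⟩
  · ext E hE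
    rw [Measure.map_apply R.measurable hE]
    have e3 : μ (R ⁻¹' E) = μ (C1 ∩ f ⁻¹' (E ∩ D1)) := by
      apply measure_congr
      have : ∀ᵐ x ∂μ, x ∈ C1 := by
        rw [ae_iff]; exact hC1n
      filter_upwards [this] with x hx
      apply propext
      constructor
      · intro h3
        have h4 : R x ∈ E := h3
        rw [hR1 x hx] at h4
        exact ⟨hx, h4, h1.fC hx⟩
      · rintro ⟨_, h3, _⟩
        change R x ∈ E
        rw [hR1 x hx]
        exact h3
    rw [e3, h1.mp _ (hE.inter hD1m) inter_subset_right]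
    apply measure_congr
    have : ∀ᵐ x ∂μ, x ∈ D1 := by
      rw [ae_iff]; exact hD1n
    filter_upwards [this] with x hx
    apply propext
    constructor
    · intro h3; exact h3.1
    · intro h3; exact ⟨h3, hx⟩
  · have : ∀ᵐ x ∂μ, x ∈ C1 := by
      rw [ae_iff]; exact hC1n
    filter_upwards [this] with x hx
    exact hR1 x hx

end Pool.Agent.H74R3
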