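import Pool.Agent.H74R3.Conj

open MeasureTheory Set Filter Topology
open scoped ENNReal

namespace Pool.Agent.H74R3

variable {X : Type*} [MeasurableSpace X] {μ : Measure X}

theorem sparse_int {T : X ≃ᵐ X} (hT : MeasurePreserving T μ μ) {E : Set X} (hE : MeasurableSet E)
    {δ : ℝ≥0∞} (h : ∀ m : ℕ, 0 < m → μ (E ∩ zp T m ⁻¹' E) ≤ δ) (m : ℤ) (hm : m ≠ 0) :
    μ (E ∩ zp T m ⁻¹' E) ≤ δ := by
  rcases lt_or_gt_of_ne hm with h1 | h1
  · obtain ⟨k, hk⟩ := Int.eq_ofNat_of_zero_le (a := -m) (by omega)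
    have hk0 : 0 < k := by omega
    have hmk : m = -(k : ℤ) := by omega
    have h2 := h k hk0
    have h3 : μ (E ∩ zp T m ⁻¹' E) = μ (E ∩ zp T k ⁻¹' E) := by
      rw [← measure_zp_preimage hT k (hE.inter (measurable_zp T m hE)), hmk]
      congr 1
      ext x
      simp only [mem_preimage, mem_inter_iff]
      rw [zp_neg_zp]
      exact and_comm
    rw [h3]; exact h2
  · obtain ⟨k, hk⟩ := Int.eq_ofNat_of_zero_le (a := m) (by omega)
    have hk0 : 0 < k := by omega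
    rw [hk]
    exact h k hk0

theorem exists_conj_approx [StandardBorelSpace X] [Nonempty X] [SigmaFinite μ]
    [NullSingletonClass μ] (hμ : μ univ = ∞) {S T : X ≃ᵐ X} (hS : MeasurePreserving S μ μ)
    (hT : MeasurePreserving T μ μ) (mS : IsMixing μ S) (mT : IsMixing μ T) {A : Set X}
    (hA : MeasurableSet A) (hAfin : μ A < ∞) {ε : ℝ≥0∞} (hε : 0 < ε) :
    ∃ R : X ≃ᵐ X, MeasurePreserving R μ μ ∧ ∃ Bad : Set X, MeasurableSet Bad ∧ μ Bad ≤ ε ∧
      ∃ n0 : ℕ, 1 ≤ n0 ∧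
        (∀ᵐ x ∂μ, x ∈ A → x ∉ Bad → ∀ n : ℤ, |n| ≤ n0 → zp (conjBy R T) n x = zp S n x) ∧
        (∀ n : ℕ, n0 < n → μ (A ∩ zp S n ⁻¹' A) ≤ ε) ∧
        (∀ n : ℕ, n0 < n → μ (A ∩ zp (conjBy R T) n ⁻¹' A) ≤ ε + ε) := by
  obtain ⟨M, hM⟩ := eventually_atTop.1
    ((mS.tendsto hS hA hA hAfin hAfin).eventually (gt_mem_nhds hε))
  set n0 := M + 1 with hn0
  obtain ⟨H, B, hH, hB, hsep, hcov, hBad⟩ :=
    exists_good_marker hS (mS.aperiodic hS) hA hAfin hε n0
  have hBadm : MeasurableSet (A ∩ ⋃ j ∈ Finset.Icc (-(n0 : ℤ)) n0, zp S j ⁻¹' B) :=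
    hA.inter (Finset.measurableSet_biUnion _ (fun j _ => measurable_zp S j hB))
  set Bad := A ∩ ⋃ j ∈ Finset.Icc (-(n0 : ℤ)) n0, zp S j ⁻¹' B with hBadD
  set B' : Set X := ⋃ h : Fin (2 * H), zp S h ⁻¹' (A ∩ Lev S B h) with hB'
  have hB'm : MeasurableSet B' := MeasurableSet.iUnion (fun h =>
    measurable_zp S _ (hA.inter (measurableSet_Lev S hB h)))
  have hB'fin : μ B' < ∞ := by
    refine lt_of_le_of_lt (measure_iUnion_fintype_le μ _) ?_
    apply ENNReal.sum_lt_top.2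
    intro h _
    rw [measure_zp_preimage hS _ (hA.inter (measurableSet_Lev S hB h))]
    exact lt_of_le_of_lt (measure_mono inter_subset_left) hAfin
  set K : ℝ≥0∞ := (((2 * H) * (2 * H) : ℕ) : ℝ≥0∞) with hK
  have hK0 : K ≠ 0 := by
    rw [hK]
    have : (2 * H) * (2 * H) ≠ 0 := by positivity
    exact_mod_cast this
  have hKt : K ≠ ∞ := ENNReal.natCast_ne_top _
  set δ : ℝ≥0∞ := ε / K with hδ
  have hδ0 : 0 < δ := ENNReal.div_pos hε.ne' hKt
  obtain ⟨E, hE, hEμ, hEsep, hEcor⟩ := exists_sparse hT mT hμ hB'fin hδ0 (2 * H)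
  obtain ⟨B'', E'', φ, ψ, F, G, hB'', hE'', hBs, hEs, hBn, hφ, hFG, hF⟩ :=
    exists_column_map hS hT hB hB'm hE hEsep hEμ.symm hB'fin hH
  have hC : ∀ h : Fin (2 * H), MeasurableSet (Lev S B h ∩ zp S (-(h : ℤ)) ⁻¹' B'') := fun h =>
    (measurableSet_Lev S hB h).inter (measurable_zp S _ hB'')
  set Z : Set X := ⋃ h : Fin (2 * H), (Lev S B h ∩ zp S (-(h : ℤ)) ⁻¹' B'') with hZ
  have hZm : MeasurableSet Z := MeasurableSet.iUnion hC
  set W : Set X := ⋃ h : Fin (2 * H), (zp T (-(h : ℤ)) ⁻¹' (E'' ∩ ψ ⁻¹' (zp S h ⁻¹'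
          (Lev S B h ∩ zp S (-(h : ℤ)) ⁻¹' B'')))) with hW
  have hWm : MeasurableSet W := MeasurableSet.iUnion (fun h =>
    measurable_zp T _ (hE''.inter (hφ.gm (measurable_zp S _ (hC h)))))
  have hZfin : μ Z < ∞ := by
    refine lt_of_le_of_lt (measure_iUnion_fintype_le μ _) ?_
    apply ENNReal.sum_lt_top.2
    intro h _
    refine lt_of_le_of_lt (measure_mono inter_subset_right) ?_
    rw [measure_zp_preimage hS _ hB'']
    exact lt_of_le_of_lt (measure_mono hBs) hB'fin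
  obtain ⟨R, hR, hRae⟩ := exists_extension hμ hZm hWm hZfin hFG
  have hT' : MeasurePreserving (conjBy R T) μ μ := mp_conjBy hR hT
  -- the good property
  let Q : X → Prop := fun x => ∀ n : ℤ, (∃ h : ℕ, h < 2 * H ∧ zp S n x ∈ Lev S B h) ∧
    zp S n x ∉ B' \ B'' ∧ (zp S n x ∈ Z → R (zp S n x) = F (zp S n x))
  have hQ : ∀ᵐ x ∂μ, Q x := by
    have b2 : ∀ᵐ x ∂μ, x ∉ B' \ B'' := by
      rw [ae_iff]
      have : {a | ¬ (a ∉ B' \ B'')} = B' \ B'' := by
        ext a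
        exact not_not
      rw [this]
      exact hBn
    filter_upwards [ae_zp hS (ae_Lev hS hH hcov), ae_zp hS b2, ae_zp hS hRae] with x h1 h2 h3 n
    exact ⟨h1 n, h2 n, h3 n⟩
  have fact1 : ∀ x, Q x → x ∈ A → ∃ h : ℕ, h < 2 * H ∧ x ∈ Lev S B h ∧
      zp S (-(h : ℤ)) x ∈ B'' ∧ R x = zp T h (φ (zp S (-(h : ℤ)) x)) := by
    intro x hx hxA
    obtain ⟨⟨h, hh, hL⟩, _, h3⟩ := hx 0
    rw [zp_zero] at hL h3
    obtain ⟨_, h4, _⟩ := hx (-(h : ℤ))
    have h5 : zp S (-(h : ℤ)) x ∈ B' := by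
      rw [hB']
      refine mem_iUnion.2 ⟨⟨h, hh⟩, ?_⟩
      simp only [mem_preimage]
      rw [zp_zp_neg]
      exact ⟨hxA, hL⟩
    have h6 : zp S (-(h : ℤ)) x ∈ B'' := by
      by_contra hcon
      exact h4 ⟨h5, hcon⟩
    have h7 : x ∈ Lev S B h ∩ zp S (-(h : ℤ)) ⁻¹' B'' := ⟨hL, h6⟩
    have h8 : x ∈ Z := mem_iUnion.2 ⟨⟨h, hh⟩, h7⟩
    exact ⟨h, hh, hL, h6, by rw [h3 h8, hF h hh x h7]⟩
  refine ⟨R, hR, Bad, hBadm, hBad, n0, by omega, ?_, ?_, ?_⟩
  · filter_upwards [hQ] with x hx hxA hxB n hn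
    obtain ⟨h, hh, hL, hb, hRx⟩ := fact1 x hx hxA
    have hno : ∀ j : ℤ, |j| ≤ n0 → zp S j x ∉ B := by
      intro j hj hmem
      apply hxB
      refine ⟨hxA, mem_iUnion₂.2 ⟨j, ?_, hmem⟩⟩
      rw [Finset.mem_Icc]
      exact abs_le.1 hj
    have hhn : (n0 : ℤ) < h := by
      by_contra hcon
      push Not at hcon
      exact hno (-(h : ℤ)) (by rw [abs_neg, Nat.abs_cast]; exact hcon) hL.1
    rw [abs_le] at hn
    obtain ⟨m, hm⟩ := Int.eq_ofNat_of_zero_le (a := (h : ℤ) + n) (by omega)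
    have e1 : zp S (-(m : ℤ)) (zp S n x) = zp S (-(h : ℤ)) x := by
      rw [← zp_add]
      congr 1
      omega
    have hyL : zp S n x ∈ Lev S B m := by
      refine ⟨by rw [e1]; exact hL.1, ?_⟩
      intro j hj hmem
      rw [← zp_add] at hmem
      by_cases hc : -(n0 : ℤ) ≤ -(j : ℤ) + n
      · exact hno _ (by rw [abs_le]; omega) hmem
      · push Not at hc
        obtain ⟨i, hi⟩ := Int.eq_ofNat_of_zero_le (a := (j : ℤ) - n) (by omega)
        refine hL.2 i (by omega) ?_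
        have : -(i : ℤ) = -(j : ℤ) + n := by omega
        rw [this]
        exact hmem
    obtain ⟨⟨h', hh', hL'⟩, _, h3⟩ := hx n
    have hmh : m = h' := Lev_unique hyL hL'
    have hm2 : m < 2 * H := by omega
    have h7 : zp S n x ∈ Lev S B m ∩ zp S (-(m : ℤ)) ⁻¹' B'' := by
      refine ⟨hyL, ?_⟩
      rw [mem_preimage, e1]
      exact hb
    have h8 : zp S n x ∈ Z := mem_iUnion.2 ⟨⟨m, hm2⟩, h7⟩
    have h9 := h3 h8
    rw [hF m hm2 _ h7, e1] at h9
    rw [zp_conjBy, hRx, ← zp_add]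
    have e2 : n + (h : ℤ) = m := by omega
    rw [e2, ← h9]
    simp
  · intro n hn
    exact (hM n (by omega)).le
  · intro n hn
    have hV : ∀ (p : Fin (2 * H) × Fin (2 * H)), μ (if (n : ℤ) + p.1 - p.2 ≠ 0 then
        R ⁻¹' (zp T (-(p.1 : ℤ)) ⁻¹' (E ∩ zp T ((n : ℤ) + p.1 - p.2) ⁻¹' E)) else ∅) ≤ δ := by
      intro p
      split_ifs with hp
      · rw [hR.measure_preimage (measurable_zp T _ (hE.inter
          (measurable_zp T _ hE))).nullMeasurableSet,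
          measure_zp_preimage hT _ (hE.inter (measurable_zp T _ hE))]
        exact sparse_int hT hE hEcor _ hp
      · simp
    have hsub : μ (A ∩ zp (conjBy R T) n ⁻¹' A) ≤ μ ((A ∩ zp S n ⁻¹' A) ∪
        ⋃ p : Fin (2 * H) × Fin (2 * H), (if (n : ℤ) + p.1 - p.2 ≠ 0 then
        R ⁻¹' (zp T (-(p.1 : ℤ)) ⁻¹' (E ∩ zp T ((n : ℤ) + p.1 - p.2) ⁻¹' E)) else ∅)) := by
      apply measure_mono_ae
      filter_upwards [hQ, ae_zp hT' hQ] with x hx hx' hxA
      obtain ⟨hxA, hyA⟩ := hxA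
      obtain ⟨h, hh, hL, hb, hRx⟩ := fact1 x hx hxA
      obtain ⟨h', hh', hL', hb', hRy⟩ := fact1 _ (hx' n) hyA
      rw [zp_conjBy] at hRy hL' hb'
      simp only [MeasurableEquiv.apply_symm_apply] at hRy
      set y := R.symm (zp T n (R x)) with hy
      set e := φ (zp S (-(h : ℤ)) x) with he
      set e' := φ (zp S (-(h' : ℤ)) y) with he'
      have heE : e ∈ E'' := hφ.fC hb
      have heE' : e' ∈ E'' := hφ.fC hb'
      rw [hRx, ← zp_add] at hRy
      have key : zp T ((n : ℤ) + h - h') e = e' := by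
        have : (n : ℤ) + h - h' = -(h' : ℤ) + ((n : ℤ) + h) := by ring
        rw [this, zp_add, hRy, zp_neg_zp]
      by_cases hz : (n : ℤ) + h - h' = 0
      · left
        rw [hz, zp_zero] at key
        have hbb : zp S (-(h : ℤ)) x = zp S (-(h' : ℤ)) y := by
          rw [← hφ.gf _ hb, ← hφ.gf _ hb', ← he, ← he', key]
        refine ⟨hxA, ?_⟩
        have : zp S n x = y := by
          have h1 : (n : ℤ) = (h' : ℤ) + -(h : ℤ) := by omega
          rw [h1, zp_add, hbb, zp_zp_neg]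
        rw [mem_preimage, this, hy, ← zp_conjBy]
        exact hyA
      · right
        refine mem_iUnion.2 ⟨(⟨h, hh⟩, ⟨h', hh'⟩), ?_⟩
        simp only
        rw [if_pos hz]
        simp only [mem_preimage]
        rw [hRx, zp_neg_zp]
        refine ⟨hEs heE, ?_⟩
        rw [mem_preimage, key]
        exact hEs heE'
    refine hsub.trans ((measure_union_le _ _).trans ?_)
    apply add_le_add
    · exact (hM n (by omega)).le
    · refine (measure_iUnion_fintype_le μ _).trans ?_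
      calc ∑ p : Fin (2 * H) × Fin (2 * H), μ (if (n : ℤ) + p.1 - p.2 ≠ 0 then
          R ⁻¹' (zp T (-(p.1 : ℤ)) ⁻¹' (E ∩ zp T ((n : ℤ) + p.1 - p.2) ⁻¹' E)) else ∅)
          ≤ ∑ p : Fin (2 * H) × Fin (2 * H), δ := Finset.sum_le_sum (fun p _ => hV p)
        _ = K * δ := by
            rw [Finset.sum_const, Finset.card_univ, Fintype.card_prod, Fintype.card_fin,
              nsmul_eq_mul]
        _ ≤ ε := ENNReal.mul_div_le

end Pool.Agent.H74R3
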