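import Pool.Agent.H74R3.Levels

open MeasureTheory Set Filter Topology
open scoped ENNReal

namespace Pool.Agent.H74R3

variable {X : Type*} [MeasurableSpace X] {μ : Measure X}

/-- the conjugate `R⁻¹ T R` -/
def conjBy (R T : X ≃ᵐ X) : X ≃ᵐ X := R.trans (T.trans R.symm)

theorem conjBy_apply (R T : X ≃ᵐ X) (x : X) : conjBy R T x = R.symm (T (R x)) := rfl

theorem conjBy_symm_apply (R T : X ≃ᵐ X) (x : X) :
    (conjBy R T).symm x = R.symm (T.symm (R x)) := rfl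

theorem mp_conjBy {R T : X ≃ᵐ X} (hR : MeasurePreserving R μ μ) (hT : MeasurePreserving T μ μ) :
    MeasurePreserving (conjBy R T) μ μ :=
  (mp_symm hR).comp (hT.comp hR)

theorem zp_conjBy (R T : X ≃ᵐ X) (n : ℤ) (x : X) :
    zp (conjBy R T) n x = R.symm (zp T n (R x)) := by
  induction n using Int.induction_on generalizing x with
  | zero => simp [zp_zero]
  | succ n ih =>
    rw [zp_add, zp_one, ih, conjBy_apply, zp_add, zp_one]
    simp
  | pred n ih =>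
    rw [sub_eq_add_neg, zp_add, zp_neg_one, ih, conjBy_symm_apply, zp_add, zp_neg_one]
    simp

/-- The column map: columns of `S` over a marker set which meet `A` are mapped to columns of `T`
over a sparse base. -/
theorem exists_column_map [StandardBorelSpace X] [Nonempty X] [SigmaFinite μ]
    [NullSingletonClass μ] {S T : X ≃ᵐ X} (hS : MeasurePreserving S μ μ)
    (hT : MeasurePreserving T μ μ)
    {H : ℕ} {B E B' : Set X} (hB : MeasurableSet B)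
    (hB'm : MeasurableSet B') (hE : MeasurableSet E)
    (hEsep : ∀ x ∈ E, ∀ h : ℕ, 0 < h → h < 2 * H → zp T h x ∉ E) (hBE : μ B' = μ E)
    (hfin : μ B' < ∞) (hH : 0 < H) :
    ∃ (B'' E'' : Set X) (φ ψ F G : X → X), MeasurableSet B'' ∧ MeasurableSet E'' ∧ B'' ⊆ B' ∧
      E'' ⊆ E ∧ μ (B' \ B'') = 0 ∧ IsPI μ μ B'' E'' φ ψ ∧
      IsPI μ μ (⋃ h : Fin (2 * H), (Lev S B h ∩ zp S (-(h : ℤ)) ⁻¹' B''))
        (⋃ h : Fin (2 * H), (zp T (-(h : ℤ)) ⁻¹' (E'' ∩ ψ ⁻¹' (zp S h ⁻¹'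
          (Lev S B h ∩ zp S (-(h : ℤ)) ⁻¹' B''))))) F G ∧
      ∀ h : ℕ, h < 2 * H → ∀ x ∈ Lev S B h ∩ zp S (-(h : ℤ)) ⁻¹' B'',
        F x = zp T h (φ (zp S (-(h : ℤ)) x)) := by
  obtain ⟨B'', E'', φ, ψ, hB'', hE'', hBs, hEs, hBn, _, hφ⟩ := exists_iso hB'm hE hfin hBE
  have hne : Nonempty (Fin (2 * H)) := ⟨⟨0, by omega⟩⟩
  have hC : ∀ h : Fin (2 * H), MeasurableSet (Lev S B h ∩ zp S (-(h : ℤ)) ⁻¹' B'') := fun h =>
    (measurableSet_Lev S hB h).inter (measurable_zp S _ hB'')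
  have hD : ∀ h : Fin (2 * H), MeasurableSet (zp T (-(h : ℤ)) ⁻¹' (E'' ∩ ψ ⁻¹' (zp S h ⁻¹'
          (Lev S B h ∩ zp S (-(h : ℤ)) ⁻¹' B'')))) := fun h =>
    measurable_zp T _ (hE''.inter (hφ.gm (measurable_zp S _ (hC h))))
  obtain ⟨F, G, hFG, hF⟩ := exists_glue (μ := μ) (ν := μ)
    (fun h : Fin (2 * H) => Lev S B h ∩ zp S (-(h : ℤ)) ⁻¹' B'')
    (fun h : Fin (2 * H) => zp T (-(h : ℤ)) ⁻¹' (E'' ∩ ψ ⁻¹' (zp S h ⁻¹'
          (Lev S B h ∩ zp S (-(h : ℤ)) ⁻¹' B''))))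
    hC hD
    (by
      intro h h' hh
      rw [Function.onFun, disjoint_left]
      rintro x ⟨hx, _⟩ ⟨hx', _⟩
      exact hh (Fin.ext (Lev_unique hx hx')))
    (by
      have aux : ∀ (h h' : Fin (2 * H)) (y : X), zp T (-(h : ℤ)) y ∈ E → zp T (-(h' : ℤ)) y ∈ E →
          ¬ (h : ℕ) < (h' : ℕ) := by
        intro h h' y h1 h2 hlt
        refine hEsep _ h2 ((h' : ℕ) - (h : ℕ)) (by omega) (by omega) ?_
        rw [← zp_add]
        have : (((h' : ℕ) - (h : ℕ) : ℕ) : ℤ) + -(h' : ℤ) = -(h : ℤ) := by omega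
        rw [this]
        exact h1
      intro h h' hh
      rw [Function.onFun, disjoint_left]
      intro y hy hy'
      have h1 : zp T (-(h : ℤ)) y ∈ E := hEs hy.1
      have h2 : zp T (-(h' : ℤ)) y ∈ E := hEs hy'.1
      rcases lt_trichotomy (h : ℕ) (h' : ℕ) with hlt | heq | hlt
      · exact aux h h' y h1 h2 hlt
      · exact hh (Fin.ext heq)
      · exact aux h' h y h2 h1 hlt)
    (fun h : Fin (2 * H) => zp T h ∘ φ ∘ zp S (-(h : ℤ)))
    (fun h : Fin (2 * H) => (zp S h ∘ ψ) ∘ zp T (-(h : ℤ)))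
    (by
      intro h
      -- first step
      have s1 : IsPI μ μ (Lev S B h ∩ zp S (-(h : ℤ)) ⁻¹' B'')
          (zp S h ⁻¹' (Lev S B h ∩ zp S (-(h : ℤ)) ⁻¹' B'')) (zp S (-(h : ℤ))) (zp S h) := by
        have := isPI_zp hS (-(h : ℤ)) (Lev S B h ∩ zp S (-(h : ℤ)) ⁻¹' B'')
        rw [neg_neg] at this
        exact this
      have hsub : zp S h ⁻¹' (Lev S B h ∩ zp S (-(h : ℤ)) ⁻¹' B'') ⊆ B'' := by
        rintro b ⟨_, hb⟩
        rw [mem_preimage, zp_neg_zp] at hb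
        exact hb
      have s2 := hφ.restrict hsub
      have mU : MeasurableSet (zp S h ⁻¹' (Lev S B h ∩ zp S (-(h : ℤ)) ⁻¹' B'')) :=
        measurable_zp S _ (hC h)
      have s3 := s1.trans s2 mU
      have s4 := isPI_zp hT (h : ℤ) (E'' ∩ ψ ⁻¹' (zp S h ⁻¹'
          (Lev S B h ∩ zp S (-(h : ℤ)) ⁻¹' B'')))
      exact s3.trans s4 (hE''.inter (hφ.gm mU)))
  refine ⟨B'', E'', φ, ψ, F, G, hB'', hE'', hBs, hEs, hBn, hφ, hFG, ?_⟩
  intro h hh x hx
  exact hF ⟨h, hh⟩ hx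

/-- extension of a partial isomorphism between sets of finite measure -/
theorem exists_extension [StandardBorelSpace X] [Nonempty X] [SigmaFinite μ]
    [NullSingletonClass μ] (hμ : μ univ = ∞) {Z W : Set X} {F G : X → X} (hZ : MeasurableSet Z)
    (hW : MeasurableSet W) (hZfin : μ Z < ∞) (h : IsPI μ μ Z W F G) :
    ∃ R : X ≃ᵐ X, MeasurePreserving R μ μ ∧ ∀ᵐ x ∂μ, x ∈ Z → R x = F x := by
  have hZW : μ Z = μ W := h.measure_eq hW
  have h1 : μ (W \ Z) = μ (Z \ W) := by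
    have e1 : μ (Z ∩ W) + μ (Z \ W) = μ Z := measure_inter_add_sdiff Z hW
    have e2 : μ (W ∩ Z) + μ (W \ Z) = μ W := measure_inter_add_sdiff W hZ
    rw [inter_comm W Z] at e2
    rw [← hZW, ← e1] at e2
    have hfin : μ (Z ∩ W) ≠ ∞ := (lt_of_le_of_lt (measure_mono inter_subset_left) hZfin).ne
    exact (ENNReal.add_right_inj hfin).1 e2
  have hWZfin : μ (W \ Z) < ∞ := by
    rw [h1]; exact lt_of_le_of_lt (measure_mono sdiff_subset) hZfin
  obtain ⟨P, Q, f2, g2, hP, hQ, hPs, hQs, hPn, hQn, h2⟩ :=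
    exists_iso (μ := μ) (hW.diff hZ) (hZ.diff hW) hWZfin h1
  obtain ⟨F1, G1, h3, hF1, hF1'⟩ := exists_glue_two hZ hP hW hQ
    (by rw [disjoint_left]; intro x hx hx2; exact (hPs hx2).2 hx)
    (by rw [disjoint_left]; intro x hx hx2; exact (hQs hx2).2 hx) h h2
  have hcm : MeasurableSet ((Z ∪ W)ᶜ) := (hZ.union hW).compl
  obtain ⟨F2, G2, h4, hF2, hF2'⟩ := exists_glue_two (hZ.union hP) hcm (hW.union hQ) hcm
    (by
      rw [disjoint_left]
      intro x hx hx2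
      rcases hx with hx | hx
      · exact hx2 (Or.inl hx)
      · exact hx2 (Or.inr (hPs hx).1))
    (by
      rw [disjoint_left]
      intro x hx hx2
      rcases hx with hx | hx
      · exact hx2 (Or.inr hx)
      · exact hx2 (Or.inl (hQs hx).1)) h3 (isPI_id _)
  have hn1 : μ ((Z ∪ P) ∪ (Z ∪ W)ᶜ)ᶜ = 0 := by
    apply measure_mono_null _ hPn
    intro x hx
    rw [mem_compl_iff, mem_union, mem_union, mem_compl_iff, mem_union] at hx
    push Not at hx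
    obtain ⟨⟨hx1, hx2⟩, hx3⟩ := hx
    refine ⟨⟨?_, hx1⟩, hx2⟩
    rcases hx3 with hx3 | hx3
    · exact (hx1 hx3).elim
    · exact hx3
  have hn2 : μ ((W ∪ Q) ∪ (Z ∪ W)ᶜ)ᶜ = 0 := by
    apply measure_mono_null _ hQn
    intro x hx
    rw [mem_compl_iff, mem_union, mem_union, mem_compl_iff, mem_union] at hx
    push Not at hx
    obtain ⟨⟨hx1, hx2⟩, hx3⟩ := hx
    refine ⟨⟨?_, hx1⟩, hx2⟩
    rcases hx3 with hx3 | hx3
    · exact hx3
    · exact (hx1 hx3).elim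
  have hunc : ¬ ((Z ∪ P) ∪ (Z ∪ W)ᶜ).Countable := by
    intro hcon
    have h5 : μ ((Z ∪ P) ∪ (Z ∪ W)ᶜ) = 0 := hcon.measure_zero μ
    have h6 : μ univ ≤ 0 := by
      rw [← union_compl_self ((Z ∪ P) ∪ (Z ∪ W)ᶜ)]
      exact (measure_union_le _ _).trans (by rw [h5, hn1, add_zero])
    rw [hμ] at h6
    exact absurd h6 (by simp)
  obtain ⟨R, hR, hRae⟩ := exists_equiv_of_isPI ((hZ.union hP).union hcm)
    ((hW.union hQ).union hcm) h4 hn1 hn2 hunc
  refine ⟨R, hR, ?_⟩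
  filter_upwards [hRae] with x hx hxZ
  rw [hx, hF2 (Or.inl hxZ), hF1 hxZ]

end Pool.Agent.H74R3
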