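import Pool.Agent.H74R3.Approx

open MeasureTheory Set Filter Topology
open scoped ENNReal

namespace Pool.Agent.H74R3

variable {X : Type*} [MeasurableSpace X]

/-- the weights `2^{-(i+1)}` -/
noncomputable def wt (i : ℕ) : ℝ≥0∞ := (1 / 2 : ℝ≥0∞) ^ (i + 1)

/-- Halmos distance -/
noncomputable def rho (μ : Measure X) (A : ℕ → Set X) (S T : X ≃ᵐ X) : ℝ≥0∞ :=
  ∑' i, wt i * (μ (symmDiff (S '' A i) (T '' A i)) + μ (symmDiff (S.symm '' A i) (T.symm '' A i)))

/-- weak distance of the `n`-th powers -/
noncomputable def dw (μ : Measure X) (A : ℕ → Set X) (n : ℕ) (S T : X ≃ᵐ X) : ℝ≥0∞ :=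
  ∑' i, ∑' j, wt i * wt j *
    ENNReal.ofReal |(μ ((S^[n] '' A i) ∩ A j)).toReal - (μ ((T^[n] '' A i) ∩ A j)).toReal|

/-- the distance `r_∞` -/
noncomputable def rInf (μ : Measure X) (A : ℕ → Set X) (S T : X ≃ᵐ X) : ℝ≥0∞ :=
  rho μ A S T + ⨆ n : ℕ, ⨆ (_ : 0 < n), dw μ A n S T

theorem tsum_wt : ∑' i, wt i = 1 := by
  unfold wt
  simp_rw [pow_succ]
  rw [ENNReal.tsum_mul_right, ENNReal.tsum_geometric]
  have : (1 : ℝ≥0∞) - 1 / 2 = 1 / 2 := by
    rw [one_div, ENNReal.one_sub_inv_two]
  rw [this, one_div, inv_inv]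
  exact ENNReal.mul_inv_cancel (by norm_num) (by norm_num)

theorem tsum_split (f : ℕ → ℝ≥0∞) (k : ℕ) :
    ∑ i ∈ Finset.range k, f i + ∑' i, f (i + k) = ∑' i, f i := by
  have h : Summable (fun n => f (n + k)) := ENNReal.summable
  exact h.sum_add_tsum_nat_add'

variable {μ : Measure X}

theorem measure_image_symmDiff_le {f g : X ≃ᵐ X} (hf : MeasurePreserving f μ μ)
    (hg : MeasurePreserving g μ μ) {A Bad : Set X} (hA : MeasurableSet A) {η : ℝ≥0∞}
    (hBad : μ Bad ≤ η) (h : ∀ᵐ x ∂μ, x ∈ A → x ∉ Bad → f x = g x) :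
    μ (symmDiff (f '' A) (g '' A)) ≤ η + η := by
  have hfA : MeasurableSet (f '' A) := f.measurableEmbedding.measurableSet_image.2 hA
  have hgA : MeasurableSet (g '' A) := g.measurableEmbedding.measurableSet_image.2 hA
  have aux : ∀ {f g : X ≃ᵐ X}, MeasurePreserving f μ μ → MeasurableSet (f '' A) →
      MeasurableSet (g '' A) → (∀ᵐ x ∂μ, x ∈ A → x ∉ Bad → f x = g x) →
      μ (f '' A \ g '' A) ≤ η := by
    intro f g hf hfA hgA h
    rw [← hf.measure_preimage (hfA.diff hgA).nullMeasurableSet]
    refine le_trans (measure_mono_ae ?_) hBad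
    filter_upwards [h] with x hx hx2
    obtain ⟨⟨y, hy, hyx⟩, hx3⟩ := hx2
    have hyx2 : y = x := f.injective hyx
    subst hyx2
    by_contra hcon
    apply hx3
    rw [hx hy hcon]
    exact ⟨y, hy, rfl⟩
  rw [symmDiff_def]
  refine (measure_union_le _ _).trans (add_le_add (aux hf hfA hgA h) (aux hg hgA hfA ?_))
  filter_upwards [h] with x hx h1 h2
  exact (hx h1 h2).symm

theorem measure_image_symmDiff_le' {f g : X ≃ᵐ X} (hf : MeasurePreserving f μ μ)
    (hg : MeasurePreserving g μ μ) {A : Set X} (hA : MeasurableSet A) :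
    μ (symmDiff (f '' A) (g '' A)) ≤ μ A + μ A := by
  have hfA : MeasurableSet (f '' A) := f.measurableEmbedding.measurableSet_image.2 hA
  have hgA : MeasurableSet (g '' A) := g.measurableEmbedding.measurableSet_image.2 hA
  have e1 : μ (f '' A) = μ A := by
    rw [← hf.measure_preimage hfA.nullMeasurableSet, preimage_image_eq _ f.injective]
  have e2 : μ (g '' A) = μ A := by
    rw [← hg.measure_preimage hgA.nullMeasurableSet, preimage_image_eq _ g.injective]
  calc μ (symmDiff (f '' A) (g '' A)) ≤ μ (f '' A ∪ g '' A) := by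
        apply measure_mono
        rw [symmDiff_def]
        exact sup_le (sdiff_subset.trans subset_union_left) (sdiff_subset.trans subset_union_right)
    _ ≤ _ := measure_union_le _ _
    _ = _ := by rw [e1, e2]

theorem ofReal_abs_sub_le {a b c : ℝ≥0∞} (ha : a ≠ ∞) (hb : b ≠ ∞) (h1 : a ≤ b + c)
    (h2 : b ≤ a + c) : ENNReal.ofReal |a.toReal - b.toReal| ≤ c := by
  by_cases hc : c = ∞
  · rw [hc]; exact le_top
  · apply ENNReal.ofReal_le_of_le_toReal
    rw [abs_le]
    have h3 : a.toReal ≤ b.toReal + c.toReal := by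
      rw [← ENNReal.toReal_add hb hc]
      exact ENNReal.toReal_mono (ENNReal.add_ne_top.2 ⟨hb, hc⟩) h1
    have h4 : b.toReal ≤ a.toReal + c.toReal := by
      rw [← ENNReal.toReal_add ha hc]
      exact ENNReal.toReal_mono (ENNReal.add_ne_top.2 ⟨ha, hc⟩) h2
    constructor <;> linarith

theorem IsMixing.conj {R T : X ≃ᵐ X} (hR : MeasurePreserving R μ μ)
    (hT : MeasurePreserving T μ μ) (mT : IsMixing μ T) : IsMixing μ (conjBy R T) := by
  intro A B hA hB hA' hB'
  have hRA : MeasurableSet (R.symm ⁻¹' A) := R.symm.measurable hA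
  have hRB : MeasurableSet (R.symm ⁻¹' B) := R.symm.measurable hB
  have e1 : μ (R.symm ⁻¹' A) = μ A := (mp_symm hR).measure_preimage hA.nullMeasurableSet
  have e2 : μ (R.symm ⁻¹' B) = μ B := (mp_symm hR).measure_preimage hB.nullMeasurableSet
  have := mT.tendsto hT hRA hRB (by rw [e1]; exact hA') (by rw [e2]; exact hB')
  refine this.congr (fun n => ?_)
  rw [measure_image_inter (mp_conjBy hR hT) n hA hB]
  rw [← hR.measure_preimage (hRA.inter (measurable_zp T n hRB)).nullMeasurableSet]
  congr 1
  ext x
  simp only [mem_preimage, mem_inter_iff, zp_conjBy, MeasurableEquiv.symm_apply_apply]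

theorem main_sum [StandardBorelSpace X] [SigmaFinite μ] [NullSingletonClass μ]
    (hμ : μ univ = ∞) (A : ℕ → Set X) (hA : ∀ i, MeasurableSet (A i)) (hAfin : ∀ i, μ (A i) < ∞)
    (hsum : ∑' i, wt i * μ (A i) < ∞) {S T : X ≃ᵐ X} (hS : MeasurePreserving S μ μ)
    (hT : MeasurePreserving T μ μ) (mS : IsMixing μ S) (mT : IsMixing μ T) {ε : ℝ≥0∞}
    (hε : 0 < ε) :
    ∃ R : X ≃ᵐ X, MeasurePreserving R μ μ ∧ rInf μ A S (conjBy R T) < ε := by
  have : Nonempty X := by
    by_contra hcon
    rw [not_nonempty_iff] at hcon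
    rw [univ_eq_empty_iff.2 hcon, measure_empty] at hμ
    exact absurd hμ (by simp)
  -- choice of η
  obtain ⟨η, hη0, hηε⟩ : ∃ η : ℝ≥0∞, 0 < η ∧ 12 * η < ε := by
    set e1 := min ε 1 with he1
    have h1 : 0 < e1 := lt_min hε one_pos
    have h1t : e1 ≠ ∞ := (lt_of_le_of_lt (min_le_right _ _) ENNReal.one_lt_top).ne
    refine ⟨e1 / 13, ENNReal.div_pos h1.ne' (by norm_num), ?_⟩
    have h2 : 13 * (e1 / 13) = e1 := ENNReal.mul_div_cancel (by norm_num) (by norm_num)
    have h3 : e1 / 13 ≠ 0 := (ENNReal.div_pos h1.ne' (by norm_num)).ne'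
    have h4 : e1 / 13 ≠ ∞ := (ENNReal.div_lt_top h1t (by norm_num)).ne
    calc 12 * (e1 / 13) < 13 * (e1 / 13) := by
          rw [ENNReal.mul_lt_mul_iff_left h3 h4]
          norm_num
      _ = e1 := h2
      _ ≤ ε := min_le_left _ _
  -- tail
  have htail := (ENNReal.tendsto_sum_nat_add (fun i => wt i * μ (A i)) hsum.ne).eventually
    (gt_mem_nhds hη0)
  obtain ⟨k, hk⟩ := htail.exists
  set t : ℕ → ℝ≥0∞ := fun i => if i < k then 0 else μ (A i) with ht
  have htsum : ∑' i, wt i * t i ≤ η := by
    have e1 : ∑' i, wt i * t i = ∑' i, wt (i + k) * μ (A (i + k)) := by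
      rw [← tsum_split (fun i => wt i * t i) k]
      have : ∑ i ∈ Finset.range k, wt i * t i = 0 := by
        apply Finset.sum_eq_zero
        intro i hi
        simp only [ht]
        rw [if_pos (Finset.mem_range.1 hi), mul_zero]
      rw [this, zero_add]
      congr 1
      ext i
      simp only [ht]
      rw [if_neg (by omega)]
    rw [e1]
    exact hk.le
  set A0 : Set X := ⋃ i ∈ Finset.range k, A i with hA0
  have hA0m : MeasurableSet A0 := Finset.measurableSet_biUnion _ (fun i _ => hA i)
  have hA0fin : μ A0 < ∞ := by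
    refine lt_of_le_of_lt (measure_biUnion_finset_le _ _) ?_
    exact ENNReal.sum_lt_top.2 (fun i _ => hAfin i)
  have hsubA : ∀ i < k, A i ⊆ A0 := by
    intro i hi x hx
    exact mem_iUnion₂.2 ⟨i, Finset.mem_range.2 hi, hx⟩
  obtain ⟨R, hR, Bad, hBadm, hBad, n0, hn0, h1, h2, h3⟩ :=
    exists_conj_approx hμ hS hT mS mT hA0m hA0fin hη0
  set T' := conjBy R T with hT'def
  have hT' : MeasurePreserving T' μ μ := mp_conjBy hR hT
  refine ⟨R, hR, ?_⟩
  -- rho estimate
  have hrho : rho μ A S T' ≤ 8 * η := by
    have hterm : ∀ i, μ (symmDiff (S '' A i) (T' '' A i)) +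
        μ (symmDiff (S.symm '' A i) (T'.symm '' A i)) ≤ 4 * η + 4 * t i := by
      intro i
      by_cases hi : i < k
      · have a1 : μ (symmDiff (S '' A i) (T' '' A i)) ≤ η + η := by
          apply measure_image_symmDiff_le hS hT' (hA i) hBad
          filter_upwards [h1] with x hx hxA hxB
          have := hx (hsubA i hi hxA) hxB 1 (by simpa using hn0)
          rw [zp_one, zp_one] at this
          exact this.symm
        have a2 : μ (symmDiff (S.symm '' A i) (T'.symm '' A i)) ≤ η + η := by
          apply measure_image_symmDiff_le (mp_symm hS) (mp_symm hT') (hA i) hBad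
          filter_upwards [h1] with x hx hxA hxB
          have := hx (hsubA i hi hxA) hxB (-1) (by simpa using hn0)
          rw [zp_neg_one, zp_neg_one] at this
          exact this.symm
        calc _ ≤ (η + η) + (η + η) := add_le_add a1 a2
          _ = 4 * η := by ring
          _ ≤ _ := le_self_add
      · have a1 := measure_image_symmDiff_le' hS hT' (hA i)
        have a2 := measure_image_symmDiff_le' (mp_symm hS) (mp_symm hT') (hA i)
        calc _ ≤ (μ (A i) + μ (A i)) + (μ (A i) + μ (A i)) := add_le_add a1 a2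
          _ = 4 * t i := by
              simp only [ht]
              rw [if_neg hi]
              ring
          _ ≤ _ := le_add_self
    calc rho μ A S T' ≤ ∑' i, wt i * (4 * η + 4 * t i) := by
          apply ENNReal.tsum_le_tsum
          intro i
          exact mul_le_mul_right (hterm i) _
      _ = ∑' i, (4 * η * wt i + 4 * (wt i * t i)) := by
          congr 1
          ext i
          ring
      _ = 4 * η + 4 * ∑' i, wt i * t i := by
          rw [ENNReal.tsum_add, ENNReal.tsum_mul_left, ENNReal.tsum_mul_left, tsum_wt, mul_one]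
      _ ≤ 4 * η + 4 * η := by gcongr
      _ = 8 * η := by ring
  -- dw estimate
  have hdw : ∀ n : ℕ, 0 < n → dw μ A n S T' ≤ 4 * η := by
    intro n hn
    have hfinL : ∀ (f : X ≃ᵐ X), MeasurePreserving f μ μ → ∀ i j,
        μ ((f^[n] '' A i) ∩ A j) ≤ μ (A i) := by
      intro f hf i j
      rw [measure_image_inter hf n (hA i) (hA j)]
      exact measure_mono inter_subset_left
    have hfinR : ∀ (f : X ≃ᵐ X), MeasurePreserving f μ μ → ∀ i j,
        μ ((f^[n] '' A i) ∩ A j) ≤ μ (A j) := by
      intro f hf i j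
      exact measure_mono inter_subset_right
    have hterm : ∀ i j, ENNReal.ofReal |(μ ((S^[n] '' A i) ∩ A j)).toReal -
        (μ ((T'^[n] '' A i) ∩ A j)).toReal| ≤ 2 * η + (t i + t j) := by
      intro i j
      have f1 : μ ((S^[n] '' A i) ∩ A j) ≠ ∞ := (lt_of_le_of_lt (hfinL S hS i j) (hAfin i)).ne
      have f2 : μ ((T'^[n] '' A i) ∩ A j) ≠ ∞ := (lt_of_le_of_lt (hfinL T' hT' i j) (hAfin i)).ne
      by_cases hi : i < k
      · by_cases hj : j < k
        · refine le_trans (ofReal_abs_sub_le (c := 2 * η) f1 f2 ?_ ?_) le_self_add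
          · rw [measure_image_inter hS n (hA i) (hA j), measure_image_inter hT' n (hA i) (hA j)]
            by_cases hn1 : n ≤ n0
            · calc μ (A i ∩ zp S n ⁻¹' A j) ≤ μ ((A i ∩ zp T' n ⁻¹' A j) ∪ Bad) := by
                    apply measure_mono_ae
                    filter_upwards [h1] with x hx hx2
                    by_cases hxB : x ∈ Bad
                    · right; exact hxB
                    · left
                      refine ⟨hx2.1, ?_⟩
                      have := hx (hsubA i hi hx2.1) hxB n (by simpa using hn1)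
                      rw [mem_preimage, this]
                      exact hx2.2
                _ ≤ _ := measure_union_le _ _
                _ ≤ μ (A i ∩ zp T' n ⁻¹' A j) + 2 * η := by
                    gcongr
                    exact hBad.trans (by rw [two_mul]; exact le_self_add)
            · calc μ (A i ∩ zp S n ⁻¹' A j) ≤ μ (A0 ∩ zp S n ⁻¹' A0) :=
                    measure_mono (inter_subset_inter (hsubA i hi) (preimage_mono (hsubA j hj)))
                _ ≤ η := h2 n (by omega)
                _ ≤ 2 * η := by rw [two_mul]; exact le_self_add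
                _ ≤ _ := le_add_self
          · rw [measure_image_inter hS n (hA i) (hA j), measure_image_inter hT' n (hA i) (hA j)]
            by_cases hn1 : n ≤ n0
            · calc μ (A i ∩ zp T' n ⁻¹' A j) ≤ μ ((A i ∩ zp S n ⁻¹' A j) ∪ Bad) := by
                    apply measure_mono_ae
                    filter_upwards [h1] with x hx hx2
                    by_cases hxB : x ∈ Bad
                    · right; exact hxB
                    · left
                      refine ⟨hx2.1, ?_⟩
                      have := hx (hsubA i hi hx2.1) hxB n (by simpa using hn1)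
                      rw [mem_preimage, ← this]
                      exact hx2.2
                _ ≤ _ := measure_union_le _ _
                _ ≤ μ (A i ∩ zp S n ⁻¹' A j) + 2 * η := by
                    gcongr
                    exact hBad.trans (by rw [two_mul]; exact le_self_add)
            · calc μ (A i ∩ zp T' n ⁻¹' A j) ≤ μ (A0 ∩ zp T' n ⁻¹' A0) :=
                    measure_mono (inter_subset_inter (hsubA i hi) (preimage_mono (hsubA j hj)))
                _ ≤ η + η := h3 n (by omega)
                _ = 2 * η := by rw [two_mul]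
                _ ≤ _ := le_add_self
        · have htj : t j = μ (A j) := by simp only [ht]; rw [if_neg hj]
          refine le_trans (ofReal_abs_sub_le (c := t j) f1 f2 ?_ ?_) ?_
          · rw [htj]; exact (hfinR S hS i j).trans le_add_self
          · rw [htj]; exact (hfinR T' hT' i j).trans le_add_self
          · exact le_add_self.trans le_add_self
      · have hti : t i = μ (A i) := by simp only [ht]; rw [if_neg hi]
        refine le_trans (ofReal_abs_sub_le (c := t i) f1 f2 ?_ ?_) ?_
        · rw [hti]; exact (hfinL S hS i j).trans le_add_self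
        · rw [hti]; exact (hfinL T' hT' i j).trans le_add_self
        · exact le_self_add.trans le_add_self
    calc dw μ A n S T' ≤ ∑' i, ∑' j, wt i * wt j * (2 * η + (t i + t j)) := by
          apply ENNReal.tsum_le_tsum
          intro i
          apply ENNReal.tsum_le_tsum
          intro j
          exact mul_le_mul_right (hterm i j) _
      _ = ∑' i, ∑' j, (2 * η * wt i * wt j + (wt i * t i * wt j + wt i * (wt j * t j))) := by
          congr 1
          ext i
          congr 1
          ext j
          ring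
      _ = 2 * η + (∑' i, wt i * t i + ∑' j, wt j * t j) := by
          simp_rw [ENNReal.tsum_add, ENNReal.tsum_mul_left, tsum_wt, mul_one]
          rw [ENNReal.tsum_mul_left, ENNReal.tsum_mul_right, tsum_wt, mul_one, one_mul]
      _ ≤ 2 * η + (η + η) := by gcongr
      _ = 4 * η := by ring
  calc rInf μ A S T' = rho μ A S T' + ⨆ n : ℕ, ⨆ (_ : 0 < n), dw μ A n S T' := rfl
    _ ≤ 8 * η + 4 * η := add_le_add hrho (iSup_le fun n => iSup_le fun hn => hdw n hn)
    _ = 12 * η := by ring
    _ < ε := hηε

end Pool.Agent.H74R3
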