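import Pool.Agent.H74R3.PI

open MeasureTheory Set Filter Topology
open scoped ENNReal

namespace Pool.Agent.H74R3

variable {X : Type*} [MeasurableSpace X]

section Quant

variable (ν : Measure ℝ) [IsFiniteMeasure ν]

noncomputable def FF (t : ℝ) : ℝ := ν.real (Iic t)

noncomputable def QQ (s : ℝ) : ℝ :=
  open Classical in if s ∈ Ioo 0 (ν.real univ) then sInf {t | s ≤ FF ν t} else 0

theorem FF_mono : Monotone (FF ν) := by
  intro a b hab
  exact measureReal_mono (Iic_subset_Iic.2 hab)

theorem FF_nonneg (t : ℝ) : 0 ≤ FF ν t := measureReal_nonneg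

theorem FF_le (t : ℝ) : FF ν t ≤ ν.real univ := measureReal_mono (subset_univ _)

theorem ofReal_FF (t : ℝ) : ENNReal.ofReal (FF ν t) = ν (Iic t) := by
  unfold FF
  rw [ofReal_measureReal]

theorem FF_atTop : Tendsto (FF ν) atTop (𝓝 (ν.real univ)) := by
  have h := tendsto_measure_Iic_atTop ν
  exact (ENNReal.tendsto_toReal (measure_ne_top ν univ)).comp h

theorem FF_atBot : Tendsto (FF ν) atBot (𝓝 0) := by
  have h := tendsto_measure_iInter_atBot (μ := ν) (s := fun t : ℝ => Iic t)
    (fun t => measurableSet_Iic.nullMeasurableSet) (fun a b hab => Iic_subset_Iic.2 hab)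
    ⟨0, measure_ne_top _ _⟩
  have h0 : (⋂ t : ℝ, Iic t) = ∅ := by
    ext x
    simp only [mem_iInter, mem_Iic, mem_empty_iff_false, iff_false, not_forall, not_le]
    exact ⟨x - 1, by linarith⟩
  rw [h0, measure_empty] at h
  have := (ENNReal.tendsto_toReal (ENNReal.zero_ne_top)).comp h
  rw [ENNReal.toReal_zero] at this
  exact this

theorem FF_QQ [NullSingletonClass ν] {s : ℝ} (hs : s ∈ Ioo 0 (ν.real univ)) :
    FF ν (QQ ν s) = s := by
  have hQ : QQ ν s = sInf {t | s ≤ FF ν t} := by simp only [QQ, if_pos hs]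
  have hne : {t | s ≤ FF ν t}.Nonempty := by
    have := (FF_atTop ν).eventually (lt_mem_nhds hs.2)
    obtain ⟨t, ht⟩ := this.exists
    exact ⟨t, ht.le⟩
  have hbd : BddBelow {t | s ≤ FF ν t} := by
    have := (FF_atBot ν).eventually (gt_mem_nhds hs.1)
    obtain ⟨t, ht⟩ := this.exists
    refine ⟨t, ?_⟩
    intro u hu
    by_contra hcon
    push Not at hcon
    have := FF_mono ν hcon.le
    have h2 : s ≤ FF ν u := hu
    linarith
  set q := QQ ν s with hq
  apply le_antisymm
  · -- F q ≤ s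
    have h1 : ν (Iic q) = ν (Iio q) := (measure_congr Iio_ae_eq_Iic).symm
    have h2 : Iio q = ⋃ n : ℕ, Iic (q - 1 / ((n : ℝ) + 1)) := by
      ext x
      simp only [mem_Iio, mem_iUnion, mem_Iic]
      constructor
      · intro hx
        obtain ⟨n, hn⟩ := exists_nat_one_div_lt (sub_pos.2 hx)
        exact ⟨n, by linarith⟩
      · rintro ⟨n, hn⟩
        have : (0 : ℝ) < 1 / ((n : ℝ) + 1) := by positivity
        linarith
    have h3 : ν (Iic q) ≤ ENNReal.ofReal s := by
      rw [h1, h2]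
      rw [Monotone.measure_iUnion]
      · apply iSup_le
        intro n
        rw [← ofReal_FF]
        apply ENNReal.ofReal_le_ofReal
        by_contra hcon
        push Not at hcon
        have h4 : q ≤ q - 1 / ((n : ℝ) + 1) := by
          rw [hQ]
          conv_rhs => rw [← hQ]
          exact csInf_le hbd hcon.le
        have : (0 : ℝ) < 1 / ((n : ℝ) + 1) := by positivity
        linarith
      · intro n m hnm
        apply Iic_subset_Iic.2
        have : 1 / ((m : ℝ) + 1) ≤ 1 / ((n : ℝ) + 1) := by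
          apply one_div_le_one_div_of_le
          · positivity
          · have : (n : ℝ) ≤ m := by exact_mod_cast hnm
            linarith
        linarith
    rw [← ofReal_FF] at h3
    exact (ENNReal.ofReal_le_ofReal_iff hs.1.le).1 h3
  · -- s ≤ F q
    have h2 : Iic q = ⋂ n : ℕ, Iic (q + 1 / ((n : ℝ) + 1)) := by
      ext x
      simp only [mem_iInter, mem_Iic]
      constructor
      · intro hx n
        have : (0 : ℝ) < 1 / ((n : ℝ) + 1) := by positivity
        linarith
      · intro h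
        by_contra hcon
        push Not at hcon
        obtain ⟨n, hn⟩ := exists_nat_one_div_lt (sub_pos.2 hcon)
        have := h n
        linarith
    have h3 : ENNReal.ofReal s ≤ ν (Iic q) := by
      rw [h2]
      rw [Antitone.measure_iInter]
      · apply le_iInf
        intro n
        rw [← ofReal_FF]
        apply ENNReal.ofReal_le_ofReal
        have hlt : sInf {t | s ≤ FF ν t} < q + 1 / ((n : ℝ) + 1) := by
          rw [← hQ]
          have : (0 : ℝ) < 1 / ((n : ℝ) + 1) := by positivity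
          linarith
        obtain ⟨t, ht, ht2⟩ := exists_lt_of_csInf_lt hne hlt
        exact le_trans ht (FF_mono ν ht2.le)
      · intro n m hnm
        apply Iic_subset_Iic.2
        have : 1 / ((m : ℝ) + 1) ≤ 1 / ((n : ℝ) + 1) := by
          apply one_div_le_one_div_of_le
          · positivity
          · have : (n : ℝ) ≤ m := by exact_mod_cast hnm
            linarith
        linarith
      · intro n
        exact measurableSet_Iic.nullMeasurableSet
      · exact ⟨0, measure_ne_top _ _⟩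
    rw [← ofReal_FF] at h3
    exact (ENNReal.ofReal_le_ofReal_iff (FF_nonneg ν q)).1 h3

theorem QQ_le_iff [NullSingletonClass ν] {s : ℝ} (hs : s ∈ Ioo 0 (ν.real univ)) (t : ℝ) :
    QQ ν s ≤ t ↔ s ≤ FF ν t := by
  constructor
  · intro h
    calc s = FF ν (QQ ν s) := (FF_QQ ν hs).symm
      _ ≤ FF ν t := FF_mono ν h
  · intro h
    have hQ : QQ ν s = sInf {t | s ≤ FF ν t} := by simp only [QQ, if_pos hs]
    rw [hQ]
    have hbd : BddBelow {t | s ≤ FF ν t} := by
      have := (FF_atBot ν).eventually (gt_mem_nhds hs.1)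
      obtain ⟨t, ht⟩ := this.exists
      refine ⟨t, ?_⟩
      intro u hu
      by_contra hcon
      push Not at hcon
      have := FF_mono ν hcon.le
      have h2 : s ≤ FF ν u := hu
      linarith
    exact csInf_le hbd h

theorem QQ_measurable [NullSingletonClass ν] : Measurable (QQ ν) := by
  apply measurable_of_Iic
  intro t
  have : QQ ν ⁻¹' Iic t = (Ioo 0 (ν.real univ) ∩ Iic (FF ν t)) ∪
      ((Ioo 0 (ν.real univ))ᶜ ∩ {s | (0 : ℝ) ≤ t}) := by
    ext s
    by_cases hs : s ∈ Ioo 0 (ν.real univ)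
    · simp only [mem_preimage, mem_Iic, mem_union, mem_inter_iff, mem_compl_iff, hs, true_and,
        not_true_eq_false, false_and, or_false]
      exact QQ_le_iff ν hs t
    · have : QQ ν s = 0 := by simp only [QQ, if_neg hs]
      simp only [mem_preimage, mem_Iic, mem_union, mem_inter_iff, mem_compl_iff, hs, false_and,
        not_false_eq_true, true_and, false_or, this, mem_ofPred_eq]
  rw [this]
  exact (measurableSet_Ioo.inter measurableSet_Iic).union
    (measurableSet_Ioo.compl.inter (MeasurableSet.const _))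

theorem map_QQ [NullSingletonClass ν] :
    (volume.restrict (Ioo 0 (ν.real univ))).map (QQ ν) = ν := by
  have : IsFiniteMeasure ((volume.restrict (Ioo 0 (ν.real univ))).map (QQ ν)) := by
    have : IsFiniteMeasure (volume.restrict (Ioo 0 (ν.real univ))) :=
      ⟨by rw [Measure.restrict_apply_univ, Real.volume_Ioo]; exact ENNReal.ofReal_lt_top⟩
    infer_instance
  apply Measure.ext_of_Iic
  intro t
  rw [Measure.map_apply (QQ_measurable ν) measurableSet_Iic,
    Measure.restrict_apply ((QQ_measurable ν) measurableSet_Iic)]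
  have : QQ ν ⁻¹' Iic t ∩ Ioo 0 (ν.real univ) = Ioo 0 (ν.real univ) ∩ Iic (FF ν t) := by
    ext s
    constructor
    · rintro ⟨h1, h2⟩
      exact ⟨h2, (QQ_le_iff ν h2 t).1 h1⟩
    · rintro ⟨h1, h2⟩
      exact ⟨(QQ_le_iff ν h1 t).2 h2, h1⟩
  rw [this]
  rw [← ofReal_FF]
  apply le_antisymm
  · calc volume (Ioo 0 (ν.real univ) ∩ Iic (FF ν t)) ≤ volume (Ioc 0 (FF ν t)) := by
          apply measure_mono
          rintro s ⟨h1, h2⟩
          exact ⟨h1.1, h2⟩
      _ = ENNReal.ofReal (FF ν t) := by rw [Real.volume_Ioc, sub_zero]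
  · calc ENNReal.ofReal (FF ν t) = volume (Ioo 0 (FF ν t)) := by rw [Real.volume_Ioo, sub_zero]
      _ ≤ _ := by
          apply measure_mono
          rintro s ⟨h1, h2⟩
          exact ⟨⟨h1, lt_of_lt_of_le h2 (FF_le ν t)⟩, h2.le⟩

end Quant

variable [StandardBorelSpace X] [Nonempty X] {μ : Measure X} [NullSingletonClass μ]

/-- a set of finite measure in a non-atomic standard space is isomorphic (mod null sets) to an
interval -/
theorem exists_iso_interval {C : Set X} (hC : MeasurableSet C) (hfin : μ C < ∞) :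
    ∃ (C' : Set X) (D' : Set ℝ) (f : X → ℝ) (g : ℝ → X), MeasurableSet C' ∧ MeasurableSet D' ∧
      C' ⊆ C ∧ D' ⊆ Ioo 0 (μ C).toReal ∧ μ (C \ C') = 0 ∧
      volume (Ioo 0 (μ C).toReal \ D') = 0 ∧ IsPI μ volume C' D' f g := by
  obtain ⟨e, he⟩ := exists_measurableEmbedding_real X
  obtain ⟨j, jm, hj⟩ := he.exists_measurable_extend measurable_id (fun _ => inferInstance)
  have hj' : ∀ x, j (e x) = x := fun x => congrFun hj x
  set ν : Measure ℝ := (μ.restrict C).map e with hν
  have : IsFiniteMeasure (μ.restrict C) := ⟨by rw [Measure.restrict_apply_univ]; exact hfin⟩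
  have : IsFiniteMeasure ν := by rw [hν]; infer_instance
  have hνapp : ∀ E : Set ℝ, MeasurableSet E → ν E = μ (C ∩ e ⁻¹' E) := by
    intro E hE
    rw [hν, Measure.map_apply he.measurable hE, Measure.restrict_apply (he.measurable hE),
      inter_comm]
  have : NullSingletonClass ν := by
    refine ⟨fun t => ?_⟩
    rw [hνapp _ (measurableSet_singleton t)]
    apply Set.Subsingleton.measure_zero
    intro x hx y hy
    exact he.injective (by
      have h1 : e x = t := hx.2
      have h2 : e y = t := hy.2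
      rw [h1, h2])
  have hc : ν.real univ = (μ C).toReal := by
    rw [measureReal_def, hνapp _ MeasurableSet.univ, preimage_univ, inter_univ]
  set c := (μ C).toReal with hcdef
  have hQm := QQ_measurable ν
  have hFm : Measurable (FF ν) := (FF_mono ν).measurable
  set C' : Set X := C ∩ {x | FF ν (e x) ∈ Ioo 0 c} ∩ {x | QQ ν (FF ν (e x)) = e x} with hC'
  set D' : Set ℝ := Ioo 0 c ∩ QQ ν ⁻¹' (e '' C) with hD'
  have hC'm : MeasurableSet C' := by
    refine (hC.inter ((hFm.comp he.measurable) measurableSet_Ioo)).inter ?_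
    exact measurableSet_eq_fun (hQm.comp (hFm.comp he.measurable)) he.measurable
  have hD'm : MeasurableSet D' := measurableSet_Ioo.inter (hQm (he.measurableSet_image.2 hC))
  have hFQ : ∀ s ∈ Ioo 0 c, FF ν (QQ ν s) = s := by
    intro s hs
    exact FF_QQ ν (by rw [hc]; exact hs)
  have key : IsPI volume μ D' C' (fun s => j (QQ ν s)) (fun x => FF ν (e x)) := by
    refine ⟨jm.comp hQm, hFm.comp he.measurable, ?_, ?_, ?_, ?_, ?_⟩
    · rintro s ⟨hs, hs2⟩
      obtain ⟨x, hx, hxs⟩ := hs2
      simp only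
      rw [← hxs, hj']
      refine ⟨⟨hx, ?_⟩, ?_⟩
      · simp only [mem_ofPred_eq]
        rw [hxs, hFQ s hs]
        exact hs
      · simp only [mem_ofPred_eq]
        rw [hxs, hFQ s hs]
    · rintro x ⟨⟨hx, hx1⟩, hx2⟩
      refine ⟨hx1, ?_⟩
      simp only [mem_preimage]
      simp only [mem_ofPred_eq] at hx2
      rw [hx2]
      exact ⟨x, hx, rfl⟩
    · rintro s ⟨hs, hs2⟩
      obtain ⟨x, hx, hxs⟩ := hs2
      rw [← hxs, hj', hxs, hFQ s hs]
    · rintro x ⟨⟨hx, hx1⟩, hx2⟩
      simp only [mem_ofPred_eq] at hx2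
      rw [hx2, hj']
    · intro E hE hEC
      have h1 : D' ∩ (fun s => j (QQ ν s)) ⁻¹' E = QQ ν ⁻¹' (e '' E) ∩ Ioo 0 c := by
        ext s
        constructor
        · rintro ⟨⟨hs, x, hx, hxs⟩, hs3⟩
          simp only [mem_preimage] at hs3
          rw [← hxs, hj'] at hs3
          exact ⟨⟨x, hs3, hxs⟩, hs⟩
        · rintro ⟨⟨x, hx, hxs⟩, hs⟩
          refine ⟨⟨hs, x, (hEC hx).1.1, hxs⟩, ?_⟩
          simp only [mem_preimage]
          rw [← hxs, hj']
          exact hx
      have hEm : MeasurableSet (e '' E) := he.measurableSet_image.2 hE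
      rw [h1, ← Measure.restrict_apply (hQm hEm), ← hc, ← Measure.map_apply hQm hEm, map_QQ ν,
        hνapp _ hEm, preimage_image_eq _ he.injective]
      congr 1
      exact inter_eq_right.2 (fun x hx => (hEC hx).1.1)
  have hcfin : ENNReal.ofReal c = μ C := by
    rw [hcdef, ENNReal.ofReal_toReal hfin.ne]
  have hDnull : volume (Ioo 0 c \ D') = 0 := by
    have h1 : Ioo 0 c \ D' = QQ ν ⁻¹' ((e '' C)ᶜ) ∩ Ioo 0 c := by
      ext s
      constructor
      · rintro ⟨hs, hs2⟩
        exact ⟨fun h => hs2 ⟨hs, h⟩, hs⟩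
      · rintro ⟨hs2, hs⟩
        exact ⟨hs, fun h => hs2 h.2⟩
    have hEm : MeasurableSet ((e '' C)ᶜ) := (he.measurableSet_image.2 hC).compl
    rw [h1, ← Measure.restrict_apply (hQm hEm), ← hc, ← Measure.map_apply hQm hEm, map_QQ ν,
      hνapp _ hEm]
    have : C ∩ e ⁻¹' (e '' C)ᶜ = ∅ := by
      ext x
      simp only [mem_inter_iff, mem_preimage, mem_compl_iff, mem_image, mem_empty_iff_false,
        iff_false, not_and, not_not]
      intro hx
      exact ⟨x, hx, rfl⟩
    rw [this, measure_empty]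
  have hDvol : volume D' = μ C := by
    have h1 : volume D' = volume (Ioo 0 c) := by
      apply measure_eq_measure_of_null_sdiff inter_subset_left hDnull
    rw [h1, Real.volume_Ioo, sub_zero, hcfin]
  have hC'vol : μ C' = μ C := by
    rw [← hDvol]
    exact (key.measure_eq hC'm).symm
  refine ⟨C', D', _, _, hC'm, hD'm, fun x hx => hx.1.1, inter_subset_left, ?_, hDnull,
    key.symm hC'm⟩
  rw [measure_sdiff (fun x hx => hx.1.1) hC'm.nullMeasurableSet (by rw [hC'vol]; exact hfin.ne),
    hC'vol, tsub_self]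

/-- two sets of the same finite measure are isomorphic mod null sets -/
theorem exists_iso {C D : Set X} (hC : MeasurableSet C) (hD : MeasurableSet D)
    (hfin : μ C < ∞) (heq : μ C = μ D) :
    ∃ (C' D' : Set X) (f g : X → X), MeasurableSet C' ∧ MeasurableSet D' ∧
      C' ⊆ C ∧ D' ⊆ D ∧ μ (C \ C') = 0 ∧ μ (D \ D') = 0 ∧ IsPI μ μ C' D' f g := by
  obtain ⟨C1, I1, f1, g1, hC1, hI1, hC1s, hI1s, hC1n, hI1n, h1⟩ := exists_iso_interval hC hfin
  obtain ⟨D1, I2, f2, g2, hD1, hI2, hD1s, hI2s, hD1n, hI2n, h2⟩ :=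
    exists_iso_interval hD (heq ▸ hfin)
  rw [← heq] at hI2n hI2s
  have r1 : IsPI volume μ (I1 ∩ I2) (C1 ∩ f1 ⁻¹' (I1 ∩ I2)) g1 f1 :=
    (h1.symm hI1).restrict inter_subset_left
  have r2 : IsPI volume μ (I1 ∩ I2) (D1 ∩ f2 ⁻¹' (I1 ∩ I2)) g2 f2 :=
    (h2.symm hI2).restrict inter_subset_right
  have mC : MeasurableSet (C1 ∩ f1 ⁻¹' (I1 ∩ I2)) := hC1.inter (h1.fm (hI1.inter hI2))
  have mD : MeasurableSet (D1 ∩ f2 ⁻¹' (I1 ∩ I2)) := hD1.inter (h2.fm (hI1.inter hI2))
  have hvol : volume (I1 ∩ I2) = μ C := by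
    have : volume (I1 ∩ I2) = volume (Ioo 0 (μ C).toReal) := by
      apply measure_eq_measure_of_null_sdiff (fun x hx => hI1s hx.1)
      rw [sdiff_inter]
      exact measure_union_null hI1n hI2n
    rw [this, Real.volume_Ioo, sub_zero, ENNReal.ofReal_toReal hfin.ne]
  have hmC : μ (C1 ∩ f1 ⁻¹' (I1 ∩ I2)) = μ C := by
    rw [← hvol]; exact (r1.measure_eq mC).symm
  have hmD : μ (D1 ∩ f2 ⁻¹' (I1 ∩ I2)) = μ D := by
    rw [← heq, ← hvol]; exact (r2.measure_eq mD).symm
  have sC : C1 ∩ f1 ⁻¹' (I1 ∩ I2) ⊆ C := fun x hx => hC1s hx.1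
  have sD : D1 ∩ f2 ⁻¹' (I1 ∩ I2) ⊆ D := fun x hx => hD1s hx.1
  refine ⟨_, _, _, _, mC, mD, sC, sD, ?_, ?_, (r1.symm mC).trans r2 (hI1.inter hI2)⟩
  · rw [measure_sdiff sC mC.nullMeasurableSet (by rw [hmC]; exact hfin.ne), hmC, tsub_self]
  · rw [measure_sdiff sD mD.nullMeasurableSet (by rw [hmD, ← heq]; exact hfin.ne), hmD, tsub_self]

/-- subsets of prescribed finite measure -/
theorem exists_subset_measure_eq [SigmaFinite μ] {B : Set X} (hB : MeasurableSet B) {c : ℝ≥0∞}
    (hc : c < μ B) : ∃ E ⊆ B, MeasurableSet E ∧ μ E = c := by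
  obtain ⟨t, ht, htB, h1, h2⟩ := Measure.exists_subset_measure_lt_top hB hc
  obtain ⟨C', D', f, g, hC', hD', hC's, hD's, hn, hDn, h⟩ := exists_iso_interval ht h2
  refine ⟨C' ∩ f ⁻¹' (D' ∩ Ioo 0 c.toReal), fun x hx => htB (hC's hx.1),
    hC'.inter (h.fm (hD'.inter measurableSet_Ioo)), ?_⟩
  rw [h.mp _ (hD'.inter measurableSet_Ioo) inter_subset_left]
  have hct : c ≠ ∞ := (h1.trans h2).ne
  have : volume (D' ∩ Ioo 0 c.toReal) = volume (Ioo 0 c.toReal) := by
    apply measure_eq_measure_of_null_sdiff inter_subset_right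
    apply measure_mono_null _ hDn
    rintro x ⟨hx, hx2⟩
    refine ⟨⟨hx.1, lt_trans hx.2 ?_⟩, fun h => hx2 ⟨h, hx⟩⟩
    exact (ENNReal.toReal_lt_toReal hct h2.ne).2 h1
  rw [this, Real.volume_Ioo, sub_zero, ENNReal.ofReal_toReal hct]

end Pool.Agent.H74R3
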