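import Pool.Agent.H74R3.Sparse
import Pool.Agent.H74R3.Absorb

open MeasureTheory Set Filter Topology
open scoped ENNReal

namespace Pool.Agent.H74R3

variable {X : Type*} [MeasurableSpace X] {μ : Measure X}

theorem ae_zp {S : X ≃ᵐ X} (hS : MeasurePreserving S μ μ) {P : X → Prop} (h : ∀ᵐ x ∂μ, P x) :
    ∀ᵐ x ∂μ, ∀ n : ℤ, P (zp S n x) := by
  rw [ae_all_iff]
  intro n
  exact (mp_zp hS n).quasiMeasurePreserving.ae h

theorem isPI_zp {T : X ≃ᵐ X} (hT : MeasurePreserving T μ μ) (n : ℤ) (C : Set X) :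
    IsPI μ μ C (zp T (-n) ⁻¹' C) (zp T n) (zp T (-n)) where
  fm := measurable_zp T n
  gm := measurable_zp T (-n)
  fC := by intro x hx; rw [mem_preimage, zp_neg_zp]; exact hx
  gD := by intro x hx; exact hx
  gf := by intro x _; exact zp_neg_zp T n x
  fg := by intro x _; exact zp_zp_neg T n x
  mp := by
    intro E hE hED
    rw [← measure_zp_preimage hT n hE]
    congr 1
    ext x
    constructor
    · rintro ⟨_, h⟩; exact h
    · intro hx
      refine ⟨?_, hx⟩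
      have := hED hx
      rw [mem_preimage, zp_neg_zp] at this
      exact this

/-- binary gluing -/
theorem exists_glue_two {C1 C2 D1 D2 : Set X} (hC1 : MeasurableSet C1) (hC2 : MeasurableSet C2)
    (hD1 : MeasurableSet D1) (hD2 : MeasurableSet D2) (dC : Disjoint C1 C2) (dD : Disjoint D1 D2)
    {f1 g1 f2 g2 : X → X} (h1 : IsPI μ μ C1 D1 f1 g1) (h2 : IsPI μ μ C2 D2 f2 g2) :
    ∃ F G : X → X, IsPI μ μ (C1 ∪ C2) (D1 ∪ D2) F G ∧ EqOn F f1 C1 ∧ EqOn F f2 C2 := by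
  obtain ⟨F, G, h, hF⟩ := exists_glue (μ := μ) (ν := μ) (fun b : Bool => if b then C1 else C2)
    (fun b : Bool => if b then D1 else D2)
    (by intro b; cases b <;> simpa) (by intro b; cases b <;> simpa)
    (by
      intro a b hab
      cases a <;> cases b <;> simp_all [Function.onFun]
      exact dC.symm)
    (by
      intro a b hab
      cases a <;> cases b <;> simp_all [Function.onFun]
      exact dD.symm)
    (fun b : Bool => if b then f1 else f2) (fun b : Bool => if b then g1 else g2)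
    (by intro b; cases b <;> simpa)
  refine ⟨F, G, ?_, ?_, ?_⟩
  · have e1 : (⋃ b : Bool, if b then C1 else C2) = C1 ∪ C2 := by
      rw [union_eq_iUnion]; congr 1; ext b; cases b <;> simp
    have e2 : (⋃ b : Bool, if b then D1 else D2) = D1 ∪ D2 := by
      rw [union_eq_iUnion]; congr 1; ext b; cases b <;> simp
    rw [e1, e2] at h
    exact h
  · have := hF true
    simpa using this
  · have := hF false
    simpa using this

/-- markers with a small exceptional set in `A` -/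
theorem exists_good_marker [StandardBorelSpace X] {S : X ≃ᵐ X} (hS : MeasurePreserving S μ μ)
    (hap : ∀ h : ℕ, 0 < h → μ {x | zp S h x = x} = 0) {A : Set X} (hA : MeasurableSet A)
    (hAfin : μ A < ∞) {ε : ℝ≥0∞} (hε : 0 < ε) (n0 : ℕ) :
    ∃ (H : ℕ) (B : Set X), 0 < H ∧ MeasurableSet B ∧
      (∀ x ∈ B, ∀ h : ℕ, 0 < h → h < H → zp S h x ∉ B) ∧
      (∀ᵐ x ∂μ, ∃ h : ℤ, |h| < H ∧ zp S h x ∈ B) ∧
      μ (A ∩ ⋃ j ∈ Finset.Icc (-(n0 : ℤ)) n0, zp S j ⁻¹' B) ≤ ε := by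
  obtain ⟨K0, hK0⟩ := ENNReal.exists_nat_gt (r := μ A / ε) (ENNReal.div_lt_top hAfin.ne hε.ne').ne
  set K := K0 + 1 with hK
  set w := 2 * n0 + 1 with hw
  set H := K * w with hH
  have hHpos : 0 < H := by positivity
  obtain ⟨B0, hB0, hsep, hcov⟩ := exists_marker (μ := μ) S hap H hHpos
  let Bc : ℕ → Set X := fun c => zp S (-((c * w : ℕ) : ℤ)) ⁻¹' B0
  have hBc : ∀ c, MeasurableSet (Bc c) := fun c => measurable_zp S _ hB0
  let Bad : ℕ → Set X := fun c => A ∩ ⋃ j ∈ Finset.Icc (-(n0 : ℤ)) n0, zp S j ⁻¹' (Bc c)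
  have hBad : ∀ c, MeasurableSet (Bad c) := fun c =>
    hA.inter (Finset.measurableSet_biUnion _ (fun j _ => measurable_zp S j (hBc c)))
  have hsepZ : ∀ (x : X) (a b : ℤ), zp S a x ∈ B0 → zp S b x ∈ B0 → |a - b| < H → a = b := by
    have aux : ∀ (x : X) (a b : ℤ), zp S a x ∈ B0 → zp S b x ∈ B0 → |a - b| < H → ¬ (a < b) := by
      intro x a b ha hb hab hlt
      obtain ⟨m, hm⟩ := Int.eq_ofNat_of_zero_le (sub_nonneg.2 hlt.le)
      have h1 : zp S b x = zp S (m : ℤ) (zp S a x) := by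
        rw [← zp_add]; congr 1; omega
      rw [h1] at hb
      refine hsep _ ha m ?_ ?_ hb
      · omega
      · rw [abs_lt] at hab; omega
    intro x a b ha hb hab
    rcases lt_trichotomy a b with h | h | h
    · exact (aux x a b ha hb hab h).elim
    · exact h
    · exact (aux x b a hb ha (by rw [abs_sub_comm]; exact hab) h).elim
  have hdis : ∀ c < K, ∀ c' < K, c ≠ c' → Disjoint (Bad c) (Bad c') := by
    intro c hc c' hc' hcc
    rw [disjoint_left]
    rintro x ⟨_, hx⟩ ⟨_, hx'⟩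
    obtain ⟨j, hj, hj2⟩ := mem_iUnion₂.1 hx
    obtain ⟨j', hj', hj2'⟩ := mem_iUnion₂.1 hx'
    rw [Finset.mem_Icc] at hj hj'
    have e1 : zp S (-((c * w : ℕ) : ℤ) + j) x ∈ B0 := by rw [zp_add]; exact hj2
    have e2 : zp S (-((c' * w : ℕ) : ℤ) + j') x ∈ B0 := by rw [zp_add]; exact hj2'
    have hcase : ∀ (c c' : ℕ) (j j' : ℤ), c < K → c' < K → c < c' → -(n0 : ℤ) ≤ j ∧ j ≤ n0 →
        -(n0 : ℤ) ≤ j' ∧ j' ≤ n0 → zp S (-((c * w : ℕ) : ℤ) + j) x ∈ B0 →
        zp S (-((c' * w : ℕ) : ℤ) + j') x ∈ B0 → False := by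
      intro c c' j j' hc hc' hcc hj hj' e1 e2
      have h1 : c * w + w ≤ c' * w := by
        have : (c + 1) * w ≤ c' * w := Nat.mul_le_mul_right w hcc
        linarith [this, add_mul c 1 w]
      have h2 : c' * w + w ≤ K * w := by
        have : (c' + 1) * w ≤ K * w := Nat.mul_le_mul_right w hc'
        linarith [this, add_mul c' 1 w]
      have h3 := hsepZ x _ _ e1 e2 (by
        rw [abs_lt]
        constructor <;> omega)
      omega
    rcases lt_or_gt_of_ne hcc with h | h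
    · exact hcase c c' j j' hc hc' h hj hj' e1 e2
    · exact hcase c' c j' j hc' hc h hj' hj e2 e1
  -- averaging
  have hsum : ∑ c ∈ Finset.range K, μ (Bad c) ≤ μ A := by
    rw [← measure_biUnion_finset]
    · apply measure_mono
      intro x hx
      obtain ⟨c, _, hc⟩ := mem_iUnion₂.1 hx
      exact hc.1
    · intro c hc c' hc' hcc
      exact hdis c (by simpa using hc) c' (by simpa using hc') hcc
    · intro c _
      exact hBad c
  have hex : ∃ c ∈ Finset.range K, μ (Bad c) ≤ ε := by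
    by_contra hcon
    push Not at hcon
    have hεt : ε ≠ ∞ := by
      have := hcon 0 (by simp [hK])
      exact (lt_of_lt_of_le this le_top).ne
    have h1 : (K : ℝ≥0∞) * ε ≤ μ A := by
      calc (K : ℝ≥0∞) * ε = ∑ c ∈ Finset.range K, ε := by simp
        _ ≤ ∑ c ∈ Finset.range K, μ (Bad c) := Finset.sum_le_sum (fun c hc => (hcon c hc).le)
        _ ≤ μ A := hsum
    have h2 : μ A < K0 * ε := by
      rwa [ENNReal.div_lt_iff (Or.inl hε.ne') (Or.inl hεt)] at hK0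
    have h3 : (K0 : ℝ≥0∞) * ε ≤ K * ε := by
      gcongr
      omega
    exact absurd (lt_of_lt_of_le h2 (h3.trans h1)) (lt_irrefl _)
  obtain ⟨c, _, hcε⟩ := hex
  refine ⟨H, Bc c, hHpos, hBc c, ?_, ?_, hcε⟩
  · intro x hx h h0 h1 hy
    refine hsep _ hx h h0 h1 ?_
    rw [← zp_add, add_comm, zp_add]
    exact hy
  · have h2 := ae_zp hS hcov
    filter_upwards [h2] with x hx
    obtain ⟨h, h3, h4⟩ := hx (-((c * w : ℕ) : ℤ))
    refine ⟨h, h3, ?_⟩
    change zp S (-((c * w : ℕ) : ℤ)) (zp S h x) ∈ B0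
    rw [← zp_add, add_comm, zp_add]
    exact h4

/-- level `h` over the marker set `B` -/
def Lev (S : X ≃ᵐ X) (B : Set X) (h : ℕ) : Set X :=
  {x | zp S (-(h : ℤ)) x ∈ B ∧ ∀ j : ℕ, j < h → zp S (-(j : ℤ)) x ∉ B}

theorem measurableSet_Lev (S : X ≃ᵐ X) {B : Set X} (hB : MeasurableSet B) (h : ℕ) :
    MeasurableSet (Lev S B h) := by
  have : Lev S B h = zp S (-(h : ℤ)) ⁻¹' B ∩ ⋂ j : ℕ, ⋂ (_ : j < h), (zp S (-(j : ℤ)) ⁻¹' B)ᶜ := by
    ext x
    simp [Lev]
  rw [this]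
  exact (measurable_zp S _ hB).inter (MeasurableSet.iInter fun j => MeasurableSet.iInter fun _ =>
    (measurable_zp S _ hB).compl)

theorem Lev_unique {S : X ≃ᵐ X} {B : Set X} {h h' : ℕ} {x : X} (hx : x ∈ Lev S B h)
    (hx' : x ∈ Lev S B h') : h = h' := by
  rcases lt_trichotomy h h' with hlt | heq | hlt
  · exact (hx'.2 h hlt hx.1).elim
  · exact heq
  · exact (hx.2 h' hlt hx'.1).elim

theorem ae_Lev {S : X ≃ᵐ X} (hS : MeasurePreserving S μ μ) {B : Set X} {H : ℕ} (hH : 0 < H)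
    (hcov : ∀ᵐ x ∂μ, ∃ h : ℤ, |h| < H ∧ zp S h x ∈ B) :
    ∀ᵐ x ∂μ, ∃ h : ℕ, h < 2 * H ∧ x ∈ Lev S B h := by
  classical
  filter_upwards [ae_zp hS hcov] with x hx
  obtain ⟨k, hk, hk2⟩ := hx (-((H : ℤ) - 1))
  rw [← zp_add] at hk2
  rw [abs_lt] at hk
  have hex : ∃ h : ℕ, zp S (-(h : ℤ)) x ∈ B := by
    refine ⟨((H : ℤ) - 1 - k).toNat, ?_⟩
    have : -(((((H : ℤ) - 1 - k).toNat : ℕ)) : ℤ) = k + -((H : ℤ) - 1) := by omega
    rw [this]
    exact hk2
  refine ⟨Nat.find hex, ?_, Nat.find_spec hex, fun j hj => Nat.find_min hex hj⟩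
  have h1 : Nat.find hex ≤ ((H : ℤ) - 1 - k).toNat := by
    apply Nat.find_min'
    have : -(((((H : ℤ) - 1 - k).toNat : ℕ)) : ℤ) = k + -((H : ℤ) - 1) := by omega
    rw [this]
    exact hk2
  omega

end Pool.Agent.H74R3
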