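import Pool.Agent.H74R3.Iso

open MeasureTheory Set Filter Topology
open scoped ENNReal

namespace Pool.Agent.H74R3

variable {X : Type*} [MeasurableSpace X]

/-- integer powers of an automorphism -/
def zp (T : X ≃ᵐ X) (n : ℤ) (x : X) : X := ((T.toEquiv : Equiv.Perm X) ^ n) x

theorem zp_zero (T : X ≃ᵐ X) (x : X) : zp T 0 x = x := by simp [zp]

theorem zp_one (T : X ≃ᵐ X) (x : X) : zp T 1 x = T x := by simp [zp]

theorem zp_add (T : X ≃ᵐ X) (m n : ℤ) (x : X) : zp T (m + n) x = zp T m (zp T n x) := by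
  simp only [zp]
  rw [zpow_add, Equiv.Perm.mul_apply]

theorem zp_nat (T : X ≃ᵐ X) (n : ℕ) (x : X) : zp T (n : ℤ) x = T^[n] x := by
  induction n generalizing x with
  | zero => simp [zp]
  | succ n ih =>
    rw [Function.iterate_succ_apply, ← ih, Nat.cast_succ, zp_add, zp_one]

theorem zp_neg_one (T : X ≃ᵐ X) (x : X) : zp T (-1) x = T.symm x := by
  simp [zp]

theorem zp_neg_zp (T : X ≃ᵐ X) (m : ℤ) (x : X) : zp T (-m) (zp T m x) = x := by
  rw [← zp_add]; simp [zp_zero]

theorem zp_zp_neg (T : X ≃ᵐ X) (m : ℤ) (x : X) : zp T m (zp T (-m) x) = x := by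
  rw [← zp_add]; simp [zp_zero]

theorem measurable_zp (T : X ≃ᵐ X) (n : ℤ) : Measurable (zp T n) := by
  induction n using Int.induction_on with
  | zero =>
    have : zp T 0 = id := by ext x; exact zp_zero T x
    rw [this]; exact measurable_id
  | succ n ih =>
    have : zp T ((n : ℤ) + 1) = zp T n ∘ T := by
      ext x; rw [zp_add, zp_one]; rfl
    rw [this]; exact ih.comp T.measurable
  | pred n ih =>
    have : zp T (-(n : ℤ) - 1) = zp T (-n) ∘ T.symm := by
      ext x; rw [sub_eq_add_neg, zp_add, zp_neg_one]; rfl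
    rw [this]; exact ih.comp T.symm.measurable

variable {μ : Measure X}

theorem mp_symm {T : X ≃ᵐ X} (hT : MeasurePreserving T μ μ) : MeasurePreserving T.symm μ μ :=
  hT.symm T

theorem mp_zp {T : X ≃ᵐ X} (hT : MeasurePreserving T μ μ) (n : ℤ) :
    MeasurePreserving (zp T n) μ μ := by
  induction n using Int.induction_on with
  | zero =>
    have : zp T 0 = id := by ext x; exact zp_zero T x
    rw [this]; exact MeasurePreserving.id μ
  | succ n ih =>
    have : zp T ((n : ℤ) + 1) = zp T n ∘ T := by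
      ext x; rw [zp_add, zp_one]; rfl
    rw [this]; exact ih.comp hT
  | pred n ih =>
    have : zp T (-(n : ℤ) - 1) = zp T (-n) ∘ T.symm := by
      ext x; rw [sub_eq_add_neg, zp_add, zp_neg_one]; rfl
    rw [this]; exact ih.comp (mp_symm hT)

theorem measure_zp_preimage {T : X ≃ᵐ X} (hT : MeasurePreserving T μ μ) (n : ℤ) {E : Set X}
    (hE : MeasurableSet E) : μ (zp T n ⁻¹' E) = μ E :=
  (mp_zp hT n).measure_preimage hE.nullMeasurableSet

theorem exists_marker [StandardBorelSpace X] (T : X ≃ᵐ X)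
    (hap : ∀ h : ℕ, 0 < h → μ {x | zp T h x = x} = 0) (H : ℕ) (hH : 0 < H) :
    ∃ B : Set X, MeasurableSet B ∧
      (∀ x ∈ B, ∀ h : ℕ, 0 < h → h < H → zp T h x ∉ B) ∧
      ∀ᵐ x ∂μ, ∃ h : ℤ, |h| < H ∧ zp T h x ∈ B := by
  obtain ⟨e, he⟩ := exists_measurableEmbedding_real X
  obtain ⟨q, hq⟩ := exists_surjective_nat (ℚ × ℚ)
  let U : ℕ → Set X := fun n => e ⁻¹' (Ioo ((q n).1 : ℝ) ((q n).2 : ℝ))
  have hU : ∀ n, MeasurableSet (U n) := fun n => he.measurable measurableSet_Ioo
  let C : ℕ → Set X := fun n => U n ∩ ⋂ h : ℕ, ⋂ (_ : 0 < h ∧ h < H), (zp T h ⁻¹' (U n))ᶜ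
  have hC : ∀ n, MeasurableSet (C n) := fun n =>
    (hU n).inter (MeasurableSet.iInter fun h => MeasurableSet.iInter fun _ =>
      ((measurable_zp T h) (hU n)).compl)
  let Nx : Set X → ℕ → Set X := fun B n =>
    C n ∩ ⋂ k : ℤ, ⋂ (_ : |k| < H), (zp T k ⁻¹' B)ᶜ
  let Bs : ℕ → Set X := fun n => Nat.rec ∅ (fun n B => B ∪ Nx B n) n
  have hBs : ∀ n, Bs (n + 1) = Bs n ∪ Nx (Bs n) n := fun n => rfl
  have hBm : ∀ n, MeasurableSet (Bs n) := by
    intro n
    induction n with
    | zero => exact MeasurableSet.empty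
    | succ n ih =>
      rw [hBs]
      exact ih.union ((hC n).inter (MeasurableSet.iInter fun h => MeasurableSet.iInter fun _ =>
        ((measurable_zp T h) ih).compl))
  have hmono : Monotone Bs := by
    apply monotone_nat_of_le_succ
    intro n
    rw [hBs]
    exact subset_union_left
  have hsep : ∀ n, ∀ x ∈ Bs n, ∀ h : ℕ, 0 < h → h < H → zp T h x ∉ Bs n := by
    intro n
    induction n with
    | zero => intro x hx; exact hx.elim
    | succ n ih =>
      intro x hx h h0 h1 hy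
      rw [hBs] at hx hy
      rcases hx with hx | hx
      · rcases hy with hy | hy
        · exact ih x hx h h0 h1 hy
        · have h2 := hy.2
          simp only [mem_iInter, mem_compl_iff, mem_preimage] at h2
          apply h2 (-(h : ℤ)) (by rw [abs_neg, Nat.abs_cast]; exact_mod_cast h1)
          rw [zp_neg_zp]
          exact hx
      · rcases hy with hy | hy
        · have h2 := hx.2
          simp only [mem_iInter, mem_compl_iff, mem_preimage] at h2
          apply h2 (h : ℤ) (by rw [Nat.abs_cast]; exact_mod_cast h1)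
          exact hy
        · have h2 := hx.1.2
          simp only [mem_iInter, mem_compl_iff, mem_preimage] at h2
          exact h2 h ⟨h0, h1⟩ hy.1.1
  refine ⟨⋃ n, Bs n, MeasurableSet.iUnion hBm, ?_, ?_⟩
  · intro x hx h h0 h1 hy
    obtain ⟨n, hn⟩ := mem_iUnion.1 hx
    obtain ⟨m, hm⟩ := mem_iUnion.1 hy
    exact hsep (max n m) x (hmono (le_max_left _ _) hn) h h0 h1 (hmono (le_max_right _ _) hm)
  · have hae : ∀ᵐ x ∂μ, ∀ h : ℕ, 0 < h → zp T h x ≠ x := by
      rw [ae_all_iff]
      intro h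
      by_cases h0 : 0 < h
      · have := hap h h0
        have h2 : ∀ᵐ x ∂μ, ¬ (zp T h x = x) := by
          rw [ae_iff]
          simpa using this
        filter_upwards [h2] with x hx _
        exact hx
      · exact Eventually.of_forall (fun x h1 => (h0 h1).elim)
    filter_upwards [hae] with x hx
    -- find a rational interval
    have : ∃ n, x ∈ C n := by
      have hfin : ((fun h : ℕ => e (zp T h x)) '' (Set.Ico 1 H)).Finite :=
        (Set.finite_Ico 1 H).image _
      have hnot : e x ∉ ((fun h : ℕ => e (zp T h x)) '' (Set.Ico 1 H)) := by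
        rintro ⟨h, ⟨h1, h2⟩, h3⟩
        exact hx h (by omega) (he.injective h3)
      have hopen : ((fun h : ℕ => e (zp T h x)) '' (Set.Ico 1 H))ᶜ ∈ 𝓝 (e x) :=
        hfin.isClosed.isOpen_compl.mem_nhds hnot
      obtain ⟨l, u, ⟨hl, hu⟩, hlu⟩ := mem_nhds_iff_exists_Ioo_subset.1 hopen
      obtain ⟨a, ha1, ha2⟩ := exists_rat_btwn hl
      obtain ⟨b, hb1, hb2⟩ := exists_rat_btwn hu
      obtain ⟨n, hn⟩ := hq (a, b)
      refine ⟨n, ?_, ?_⟩
      · change e x ∈ Ioo ((q n).1 : ℝ) ((q n).2 : ℝ)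
        rw [hn]
        exact ⟨ha2, hb1⟩
      · simp only [mem_iInter, mem_compl_iff, mem_preimage]
        intro h hh hmem
        have hm2 : e (zp T h x) ∈ Ioo ((q n).1 : ℝ) ((q n).2 : ℝ) := hmem
        rw [hn] at hm2
        have h3 := hlu (⟨lt_trans ha1 hm2.1, lt_trans hm2.2 hb2⟩ : e (zp T h x) ∈ Ioo l u)
        apply h3
        exact ⟨h, ⟨by omega, hh.2⟩, rfl⟩
    obtain ⟨n, hn⟩ := this
    rcases Classical.em (∃ k : ℤ, |k| < (H : ℤ) ∧ zp T k x ∈ Bs n) with hcase | hcase
    · obtain ⟨k, hk, hk2⟩ := hcase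
      exact ⟨k, hk, mem_iUnion.2 ⟨n, hk2⟩⟩
    · push Not at hcase
      refine ⟨0, by simpa using hH, ?_⟩
      rw [zp_zero]
      refine mem_iUnion.2 ⟨n + 1, ?_⟩
      rw [hBs]
      right
      refine ⟨hn, ?_⟩
      simp only [mem_iInter, mem_compl_iff, mem_preimage]
      exact hcase

end Pool.Agent.H74R3
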