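import Pool.Agent.H74R3.Final

open MeasureTheory Set Filter Topology
open scoped ENNReal

namespace Pool.Agent.H74R3

variable {X : Type*} [MeasurableSpace X] {μ : Measure X}

theorem metric_step [StandardBorelSpace X] [Nonempty X] [SigmaFinite μ] [NullSingletonClass μ]
    (hμ : μ univ = ∞) (A : ℕ → Set X) (hA : ∀ i, MeasurableSet (A i)) (hAfin : ∀ i, μ (A i) < ∞)
    (hsum : ∑' i, wt i * μ (A i) = ∞) (G : Set X) (hG : MeasurableSet G) (hGfin : μ G < ∞) :
    ∃ (m : ℕ) (P P' : Set X), MeasurableSet P ∧ MeasurableSet P' ∧ μ P < ∞ ∧ μ P = μ P' ∧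
      Disjoint P G ∧ Disjoint P' G ∧ Disjoint P P' ∧ (∀ i < m, Disjoint P' (A i)) ∧
      1 ≤ ∑ i ∈ Finset.range m, wt i * μ (A i ∩ P) := by
  have h1 : ∑' i, wt i * μ (A i \ G) = ∞ := by
    by_contra hcon
    have h2 : ∑' i, wt i * μ (A i) ≤ μ G + ∑' i, wt i * μ (A i \ G) := by
      calc ∑' i, wt i * μ (A i) ≤ ∑' i, (wt i * μ G + wt i * μ (A i \ G)) := by
            apply ENNReal.tsum_le_tsum
            intro i
            rw [← mul_add]
            apply mul_le_mul_right
            calc μ (A i) ≤ μ (G ∪ (A i \ G)) := by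
                  apply measure_mono
                  intro x hx
                  by_cases hxG : x ∈ G
                  · left; exact hxG
                  · right; exact ⟨hx, hxG⟩
              _ ≤ _ := measure_union_le _ _
        _ = _ := by rw [ENNReal.tsum_add, ENNReal.tsum_mul_right, tsum_wt, one_mul]
    rw [hsum] at h2
    have h3 : μ G + ∑' i, wt i * μ (A i \ G) < ∞ :=
      ENNReal.add_lt_top.2 ⟨hGfin, lt_top_iff_ne_top.2 hcon⟩
    exact absurd h3 (not_lt.2 h2)
  rw [ENNReal.tsum_eq_iSup_nat] at h1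
  have h2 : (1 : ℝ≥0∞) < ⨆ i : ℕ, ∑ a ∈ Finset.range i, wt a * μ (A a \ G) := by
    rw [h1]; exact ENNReal.one_lt_top
  obtain ⟨m, hm⟩ := lt_iSup_iff.1 h2
  set U : Set X := ⋃ i ∈ Finset.range m, A i with hU
  have hUm : MeasurableSet U := Finset.measurableSet_biUnion _ (fun i _ => hA i)
  have hUfin : μ U < ∞ := by
    refine lt_of_le_of_lt (measure_biUnion_finset_le _ _) ?_
    exact ENNReal.sum_lt_top.2 (fun i _ => hAfin i)
  have hbig : μ (G ∪ U)ᶜ = ∞ := by
    by_contra hcon
    have h3 : μ univ ≤ μ (G ∪ U) + μ (G ∪ U)ᶜ := by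
      rw [← union_compl_self (G ∪ U)]
      exact measure_union_le _ _
    rw [hμ] at h3
    have h4 : μ (G ∪ U) + μ (G ∪ U)ᶜ < ∞ :=
      ENNReal.add_lt_top.2 ⟨lt_of_le_of_lt (measure_union_le _ _)
        (ENNReal.add_lt_top.2 ⟨hGfin, hUfin⟩), lt_top_iff_ne_top.2 hcon⟩
    exact absurd h4 (not_lt.2 h3)
  have hPfin : μ (U \ G) < ∞ := lt_of_le_of_lt (measure_mono sdiff_subset) hUfin
  obtain ⟨P', hP's, hP'm, hP'μ⟩ := exists_subset_measure_eq (μ := μ) (hG.union hUm).compl
    (c := μ (U \ G)) (by rw [hbig]; exact hPfin)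
  refine ⟨m, U \ G, P', hUm.diff hG, hP'm, hPfin, hP'μ.symm, ?_, ?_, ?_, ?_, ?_⟩
  · exact disjoint_sdiff_left
  · rw [disjoint_left]
    intro x hx hxG
    exact hP's hx (Or.inl hxG)
  · rw [disjoint_left]
    intro x hx hxP
    exact hP's hxP (Or.inr hx.1)
  · intro i hi
    rw [disjoint_left]
    intro x hx hxA
    exact hP's hx (Or.inr (mem_iUnion₂.2 ⟨i, Finset.mem_range.2 hi, hxA⟩))
  · refine hm.le.trans (Finset.sum_le_sum ?_)
    intro i hi
    apply mul_le_mul_right
    apply measure_mono
    rintro x ⟨hx, hxG⟩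
    exact ⟨hx, mem_iUnion₂.2 ⟨i, hi, hx⟩, hxG⟩

theorem summable_of_metric [StandardBorelSpace X] [SigmaFinite μ] [NullSingletonClass μ]
    (hμ : μ univ = ∞) (A : ℕ → Set X) (hA : ∀ i, MeasurableSet (A i)) (hAfin : ∀ i, μ (A i) < ∞)
    (hmetric : ∀ S T : X ≃ᵐ X, MeasurePreserving S μ μ → MeasurePreserving T μ μ →
      rho μ A S T < ∞) : ∑' i, wt i * μ (A i) < ∞ := by
  have : Nonempty X := by
    by_contra hcon
    rw [not_nonempty_iff] at hcon
    rw [univ_eq_empty_iff.2 hcon, measure_empty] at hμ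
    exact absurd hμ (by simp)
  by_contra hcon
  have hsum : ∑' i, wt i * μ (A i) = ∞ := not_lt_top_iff.1 hcon
  have hstep := metric_step hμ A hA hAfin hsum
  choose! m P P' hP using hstep
  -- the sequence of used sets
  let G : ℕ → Set X := fun n => Nat.rec (motive := fun _ => Set X) ∅
    (fun _ G => G ∪ (P G ∪ P' G)) n
  have hGs : ∀ n, G (n + 1) = G n ∪ (P (G n) ∪ P' (G n)) := fun n => rfl
  have hG : ∀ n, MeasurableSet (G n) ∧ μ (G n) < ∞ := by
    intro n
    induction n with
    | zero => exact ⟨MeasurableSet.empty, by change μ ∅ < ∞; simp⟩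
    | succ n ih =>
      obtain ⟨h1, h2, h3, h4, _⟩ := hP (G n) ih.1 ih.2
      rw [hGs]
      refine ⟨ih.1.union (h1.union h2), ?_⟩
      refine lt_of_le_of_lt (measure_union_le _ _) (ENNReal.add_lt_top.2 ⟨ih.2, ?_⟩)
      refine lt_of_le_of_lt (measure_union_le _ _) (ENNReal.add_lt_top.2 ⟨h3, ?_⟩)
      rw [← h4]; exact h3
  have hmono : Monotone G := by
    apply monotone_nat_of_le_succ
    intro n
    rw [hGs]
    exact subset_union_left
  have hp1 : ∀ n, MeasurableSet (P (G n)) := fun n => (hP (G n) (hG n).1 (hG n).2).1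
  have hp2 : ∀ n, MeasurableSet (P' (G n)) := fun n => (hP (G n) (hG n).1 (hG n).2).2.1
  have hp3 : ∀ n, μ (P (G n)) < ∞ := fun n => (hP (G n) (hG n).1 (hG n).2).2.2.1
  have hp4 : ∀ n, μ (P (G n)) = μ (P' (G n)) := fun n => (hP (G n) (hG n).1 (hG n).2).2.2.2.1
  have hp5 : ∀ n, Disjoint (P (G n)) (G n) := fun n => (hP (G n) (hG n).1 (hG n).2).2.2.2.2.1
  have hp6 : ∀ n, Disjoint (P' (G n)) (G n) := fun n => (hP (G n) (hG n).1 (hG n).2).2.2.2.2.2.1
  have hp7 : ∀ n, Disjoint (P (G n)) (P' (G n)) :=
    fun n => (hP (G n) (hG n).1 (hG n).2).2.2.2.2.2.2.1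
  have hp8 : ∀ n, ∀ i < m (G n), Disjoint (P' (G n)) (A i) :=
    fun n => (hP (G n) (hG n).1 (hG n).2).2.2.2.2.2.2.2.1
  have hp9 : ∀ n, 1 ≤ ∑ i ∈ Finset.range (m (G n)), wt i * μ (A i ∩ P (G n)) :=
    fun n => (hP (G n) (hG n).1 (hG n).2).2.2.2.2.2.2.2.2
  have hsub : ∀ j n, j < n → P (G j) ∪ P' (G j) ⊆ G n := by
    intro j n hjn
    have h1 : G (j + 1) ⊆ G n := hmono hjn
    rw [hGs] at h1
    exact subset_union_right.trans h1
  have hdisj : ∀ j n, j ≠ n → Disjoint (P (G j) ∪ P' (G j)) (P (G n) ∪ P' (G n)) := by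
    have aux : ∀ j n, j < n → Disjoint (P (G j) ∪ P' (G j)) (P (G n) ∪ P' (G n)) := by
      intro j n hjn
      rw [disjoint_left]
      intro x hx hx2
      have h1 := hsub j n hjn hx
      rcases hx2 with h2 | h2
      · exact disjoint_left.1 (hp5 n) h2 h1
      · exact disjoint_left.1 (hp6 n) h2 h1
    intro j n hjn
    rcases lt_or_gt_of_ne hjn with h | h
    · exact aux j n h
    · exact (aux n j h).symm
  have hiso := fun n => exists_iso (μ := μ) (hp1 n) (hp2 n) (hp3 n) (hp4 n)
  choose C D f g hC hD hCs hDs hCn hDn hPI using hiso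
  set V : Set X := (⋃ n, (P (G n) ∪ P' (G n)))ᶜ with hV
  have hVm : MeasurableSet V := (MeasurableSet.iUnion (fun n => (hp1 n).union (hp2 n))).compl
  -- gluing
  let CC : Option (Bool × ℕ) → Set X := fun o =>
    match o with
    | none => V
    | some (true, n) => C n
    | some (false, n) => D n
  let DD : Option (Bool × ℕ) → Set X := fun o =>
    match o with
    | none => V
    | some (true, n) => D n
    | some (false, n) => C n
  let ff : Option (Bool × ℕ) → X → X := fun o =>
    match o with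
    | none => id
    | some (true, n) => f n
    | some (false, n) => g n
  let gg : Option (Bool × ℕ) → X → X := fun o =>
    match o with
    | none => id
    | some (true, n) => g n
    | some (false, n) => f n
  have hCV : ∀ n, Disjoint (C n) V := by
    intro n
    rw [disjoint_left]
    intro x hx hx2
    exact hx2 (mem_iUnion.2 ⟨n, Or.inl (hCs n hx)⟩)
  have hDV : ∀ n, Disjoint (D n) V := by
    intro n
    rw [disjoint_left]
    intro x hx hx2
    exact hx2 (mem_iUnion.2 ⟨n, Or.inr (hDs n hx)⟩)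
  have hCD : ∀ n n', Disjoint (C n) (D n') := by
    intro n n'
    by_cases hn : n = n'
    · subst hn
      exact (hp7 n).mono (hCs n) (hDs n)
    · exact (hdisj n n' hn).mono ((hCs n).trans subset_union_left)
        ((hDs n').trans subset_union_right)
  have hCC : ∀ n n', n ≠ n' → Disjoint (C n) (C n') := by
    intro n n' hn
    exact (hdisj n n' hn).mono ((hCs n).trans subset_union_left)
        ((hCs n').trans subset_union_left)
  have hDD : ∀ n n', n ≠ n' → Disjoint (D n) (D n') := by
    intro n n' hn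
    exact (hdisj n n' hn).mono ((hDs n).trans subset_union_right)
        ((hDs n').trans subset_union_right)
  have hpw1 : Pairwise (Function.onFun Disjoint CC) := by
    rintro (_ | ⟨_ | _, n⟩) (_ | ⟨_ | _, n'⟩) hne
    · exact (hne rfl).elim
    · exact (hDV n').symm
    · exact (hCV n').symm
    · exact hDV n
    · exact hDD n n' (fun h => hne (by rw [h]))
    · exact (hCD n' n).symm
    · exact hCV n
    · exact hCD n n'
    · exact hCC n n' (fun h => hne (by rw [h]))
  have hpw2 : Pairwise (Function.onFun Disjoint DD) := by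
    rintro (_ | ⟨_ | _, n⟩) (_ | ⟨_ | _, n'⟩) hne
    · exact (hne rfl).elim
    · exact (hCV n').symm
    · exact (hDV n').symm
    · exact hCV n
    · exact hCC n n' (fun h => hne (by rw [h]))
    · exact hCD n n'
    · exact hDV n
    · exact (hCD n' n).symm
    · exact hDD n n' (fun h => hne (by rw [h]))
  have hm1 : ∀ o, MeasurableSet (CC o) := by
    rintro (_ | ⟨_ | _, n⟩)
    · exact hVm
    · exact hD n
    · exact hC n
  have hm2 : ∀ o, MeasurableSet (DD o) := by
    rintro (_ | ⟨_ | _, n⟩)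
    · exact hVm
    · exact hC n
    · exact hD n
  have hpi : ∀ o, IsPI μ μ (CC o) (DD o) (ff o) (gg o) := by
    rintro (_ | ⟨_ | _, n⟩)
    · exact isPI_id V
    · exact (hPI n).symm (hD n)
    · exact hPI n
  obtain ⟨F, Gi, hFG, hF⟩ := exists_glue (μ := μ) (ν := μ) CC DD hm1 hm2 hpw1 hpw2 ff gg hpi
  have hn1 : μ (⋃ o, CC o)ᶜ = 0 := by
    have hs : (⋃ o, CC o)ᶜ ⊆ ⋃ n, ((P (G n) \ C n) ∪ (P' (G n) \ D n)) := by
      intro x hx
      rw [mem_compl_iff, mem_iUnion] at hx
      push Not at hx
      have hxV : x ∉ V := hx none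
      rw [hV, mem_compl_iff, not_not] at hxV
      obtain ⟨n, hn⟩ := mem_iUnion.1 hxV
      refine mem_iUnion.2 ⟨n, ?_⟩
      rcases hn with hn | hn
      · left; exact ⟨hn, hx (some (true, n))⟩
      · right; exact ⟨hn, hx (some (false, n))⟩
    apply measure_mono_null hs
    rw [measure_iUnion_null_iff]
    intro n
    exact measure_union_null (hCn n) (hDn n)
  have hn2 : μ (⋃ o, DD o)ᶜ = 0 := by
    have hs : (⋃ o, DD o)ᶜ ⊆ ⋃ n, ((P (G n) \ C n) ∪ (P' (G n) \ D n)) := by
      intro x hx
      rw [mem_compl_iff, mem_iUnion] at hx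
      push Not at hx
      have hxV : x ∉ V := hx none
      rw [hV, mem_compl_iff, not_not] at hxV
      obtain ⟨n, hn⟩ := mem_iUnion.1 hxV
      refine mem_iUnion.2 ⟨n, ?_⟩
      rcases hn with hn | hn
      · left; exact ⟨hn, hx (some (false, n))⟩
      · right; exact ⟨hn, hx (some (true, n))⟩
    apply measure_mono_null hs
    rw [measure_iUnion_null_iff]
    intro n
    exact measure_union_null (hCn n) (hDn n)
  have hunc : ¬ (⋃ o, CC o).Countable := by
    intro hcon
    have h5 : μ (⋃ o, CC o) = 0 := hcon.measure_zero μ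
    have h6 : μ univ ≤ 0 := by
      rw [← union_compl_self (⋃ o, CC o)]
      exact (measure_union_le _ _).trans (by rw [h5, hn1, add_zero])
    rw [hμ] at h6
    exact absurd h6 (by simp)
  obtain ⟨R, hR, hRae⟩ := exists_equiv_of_isPI (MeasurableSet.iUnion hm1)
    (MeasurableSet.iUnion hm2) hFG hn1 hn2 hunc
  -- lower bound
  have hlow : ∀ i, ∑' n, (if i < m (G n) then μ (A i ∩ P (G n)) else 0) ≤
      μ (symmDiff (MeasurableEquiv.refl X '' A i) (R '' A i)) := by
    intro i
    have hRA : MeasurableSet (R '' A i) := R.measurableEmbedding.measurableSet_image.2 (hA i)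
    have e1 : μ (A i ∩ {x | R x ∉ A i}) ≤
        μ (symmDiff (MeasurableEquiv.refl X '' A i) (R '' A i)) := by
      have e2 : μ (A i ∩ {x | R x ∉ A i}) = μ (R ⁻¹' (R '' A i \ A i)) := by
        congr 1
        ext x
        constructor
        · rintro ⟨hx, hx2⟩
          exact ⟨⟨x, hx, rfl⟩, hx2⟩
        · rintro ⟨⟨y, hy, hyx⟩, hx2⟩
          have := R.injective hyx
          subst this
          exact ⟨hy, hx2⟩
      rw [e2, hR.measure_preimage (hRA.diff (hA i)).nullMeasurableSet]
      apply measure_mono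
      have e3 : (MeasurableEquiv.refl X '' A i) = A i := by
        ext x; simp
      rw [e3, symmDiff_def]
      exact subset_union_right
    refine le_trans ?_ e1
    have e4 : ∀ n, (if i < m (G n) then μ (A i ∩ P (G n)) else 0) =
        μ (if i < m (G n) then A i ∩ C n else ∅) := by
      intro n
      split_ifs
      · apply le_antisymm
        · calc μ (A i ∩ P (G n)) ≤ μ ((A i ∩ C n) ∪ (P (G n) \ C n)) := by
                apply measure_mono
                rintro x ⟨hx, hx2⟩
                by_cases hxC : x ∈ C n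
                · left; exact ⟨hx, hxC⟩
                · right; exact ⟨hx2, hxC⟩
            _ ≤ _ := measure_union_le _ _
            _ = _ := by rw [hCn n, add_zero]
        · exact measure_mono (inter_subset_inter_right _ (hCs n))
      · simp
    simp_rw [e4]
    rw [← measure_iUnion]
    · apply measure_mono_ae
      filter_upwards [hRae] with x hx hx2
      obtain ⟨n, hn⟩ := mem_iUnion.1 hx2
      split_ifs at hn with hin
      · refine ⟨hn.1, ?_⟩
        have h1 : F x = f n x := hF (some (true, n)) hn.2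
        have h2 : R x ∈ P' (G n) := by
          rw [hx, h1]
          exact hDs n ((hPI n).fC hn.2)
        exact disjoint_left.1 (hp8 n i hin) h2
      · exact hn.elim
    · intro n n' hn
      rw [Function.onFun]
      split_ifs
      · exact (hCC n n' hn).mono inter_subset_right inter_subset_right
      · exact disjoint_empty _
      · exact empty_disjoint _
      · exact disjoint_empty _
    · intro n
      split_ifs
      · exact (hA i).inter (hC n)
      · exact MeasurableSet.empty
  have hinf : (∞ : ℝ≥0∞) ≤ rho μ A (MeasurableEquiv.refl X) R := by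
    calc (∞ : ℝ≥0∞) = ∑' _ : ℕ, (1 : ℝ≥0∞) := by
          rw [ENNReal.tsum_const_eq_top_of_ne_zero one_ne_zero]
      _ ≤ ∑' n, ∑ i ∈ Finset.range (m (G n)), wt i * μ (A i ∩ P (G n)) :=
          ENNReal.tsum_le_tsum hp9
      _ ≤ ∑' n, ∑' i, wt i * (if i < m (G n) then μ (A i ∩ P (G n)) else 0) := by
          apply ENNReal.tsum_le_tsum
          intro n
          calc ∑ i ∈ Finset.range (m (G n)), wt i * μ (A i ∩ P (G n))
              = ∑ i ∈ Finset.range (m (G n)),
                wt i * (if i < m (G n) then μ (A i ∩ P (G n)) else 0) := by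
                apply Finset.sum_congr rfl
                intro i hi
                rw [if_pos (Finset.mem_range.1 hi)]
            _ ≤ _ := ENNReal.sum_le_tsum _
      _ = ∑' i, ∑' n, wt i * (if i < m (G n) then μ (A i ∩ P (G n)) else 0) :=
          ENNReal.tsum_comm
      _ = ∑' i, wt i * ∑' n, (if i < m (G n) then μ (A i ∩ P (G n)) else 0) := by
          simp_rw [ENNReal.tsum_mul_left]
      _ ≤ rho μ A (MeasurableEquiv.refl X) R := by
          apply ENNReal.tsum_le_tsum
          intro i
          apply mul_le_mul_right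
          exact (hlow i).trans le_self_add
  exact absurd (hmetric (MeasurableEquiv.refl X) R (MeasurePreserving.id μ) hR) (not_lt.2 hinf)

end Pool.Agent.H74R3
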