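import Mathlib

open MeasureTheory Set Filter Topology
open scoped ENNReal

namespace Pool.Agent.H74R3

variable {X Y Z : Type*} [MeasurableSpace X] [MeasurableSpace Y] [MeasurableSpace Z]

/-- `f : C → D` and `g : D → C` are mutually inverse measurable measure preserving maps. -/
structure IsPI (μ : Measure X) (ν : Measure Y) (C : Set X) (D : Set Y) (f : X → Y) (g : Y → X) :
    Prop where
  fm : Measurable f
  gm : Measurable g
  fC : MapsTo f C D
  gD : MapsTo g D C
  gf : ∀ x ∈ C, g (f x) = x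
  fg : ∀ y ∈ D, f (g y) = y
  mp : ∀ E, MeasurableSet E → E ⊆ D → μ (C ∩ f ⁻¹' E) = ν E

variable {μ : Measure X} {ν : Measure Y} {ρ : Measure Z}

theorem IsPI.symm {C : Set X} {D : Set Y} {f : X → Y} {g : Y → X} (h : IsPI μ ν C D f g)
    (hD : MeasurableSet D) : IsPI ν μ D C g f where
  fm := h.gm
  gm := h.fm
  fC := h.gD
  gD := h.fC
  gf := h.fg
  fg := h.gf
  mp := by
    intro E hE hEC
    have h1 := h.mp (D ∩ g ⁻¹' E) (hD.inter (h.gm hE)) inter_subset_left
    rw [← h1]
    congr 1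
    ext x
    constructor
    · rintro ⟨hx, hx1, hx2⟩
      rw [mem_preimage, h.gf x hx] at hx2
      exact hx2
    · intro hx
      refine ⟨hEC hx, h.fC (hEC hx), ?_⟩
      rw [mem_preimage, h.gf x (hEC hx)]
      exact hx

theorem IsPI.trans {C : Set X} {D : Set Y} {E : Set Z} {f : X → Y} {g : Y → X} {f' : Y → Z}
    {g' : Z → Y} (h : IsPI μ ν C D f g) (h' : IsPI ν ρ D E f' g') (hD : MeasurableSet D) :
    IsPI μ ρ C E (f' ∘ f) (g ∘ g') where
  fm := h'.fm.comp h.fm
  gm := h.gm.comp h'.gm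
  fC := h'.fC.comp h.fC
  gD := h.gD.comp h'.gD
  gf := by
    intro x hx
    simp only [Function.comp]
    rw [h'.gf _ (h.fC hx), h.gf x hx]
  fg := by
    intro z hz
    simp only [Function.comp]
    rw [h.fg _ (h'.gD hz), h'.fg z hz]
  mp := by
    intro A hA hAE
    rw [← h'.mp A hA hAE, ← h.mp (D ∩ f' ⁻¹' A) (hD.inter (h'.fm hA)) inter_subset_left]
    congr 1
    ext x
    constructor
    · rintro ⟨hx, hx1⟩
      exact ⟨hx, h.fC hx, hx1⟩
    · rintro ⟨hx, _, hx1⟩
      exact ⟨hx, hx1⟩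

theorem IsPI.restrict {C : Set X} {D : Set Y} {f : X → Y} {g : Y → X} (h : IsPI μ ν C D f g)
    {C' : Set X} (hC' : C' ⊆ C) : IsPI μ ν C' (D ∩ g ⁻¹' C') f g where
  fm := h.fm
  gm := h.gm
  fC := by
    intro x hx
    refine ⟨h.fC (hC' hx), ?_⟩
    rw [mem_preimage, h.gf x (hC' hx)]
    exact hx
  gD := fun y hy => hy.2
  gf := fun x hx => h.gf x (hC' hx)
  fg := fun y hy => h.fg y hy.1
  mp := by
    intro E hE hED
    rw [← h.mp E hE (fun y hy => (hED hy).1)]
    congr 1
    ext x
    constructor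
    · rintro ⟨hx, hx1⟩
      exact ⟨hC' hx, hx1⟩
    · rintro ⟨hx, hx1⟩
      have := (hED hx1).2
      rw [mem_preimage, h.gf x hx] at this
      exact ⟨this, hx1⟩

theorem IsPI.measure_eq {C : Set X} {D : Set Y} {f : X → Y} {g : Y → X} (h : IsPI μ ν C D f g)
    (hD : MeasurableSet D) : μ C = ν D := by
  rw [← h.mp D hD Subset.rfl]
  congr 1
  ext x
  constructor
  · intro hx; exact ⟨hx, h.fC hx⟩
  · intro hx; exact hx.1

/-- null sets are mapped to null sets: if `C' ⊆ C` then the image set has the same measure -/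
theorem IsPI.measure_restrict {C : Set X} {D : Set Y} {f : X → Y} {g : Y → X}
    (h : IsPI μ ν C D f g) (hD : MeasurableSet D) {C' : Set X} (hC' : C' ⊆ C)
    (hm : MeasurableSet C') : ν (D ∩ g ⁻¹' C') = μ C' :=
  (h.symm hD).mp C' hm hC'

/-- gluing of countably many partial isomorphisms -/
theorem exists_glue {ι : Type*} [Countable ι] [Nonempty ι] (C : ι → Set X) (D : ι → Set Y)
    (hC : ∀ i, MeasurableSet (C i)) (hD : ∀ i, MeasurableSet (D i))
    (dC : Pairwise (Function.onFun Disjoint C)) (dD : Pairwise (Function.onFun Disjoint D))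
    (f : ι → X → Y) (g : ι → Y → X) (h : ∀ i, IsPI μ ν (C i) (D i) (f i) (g i)) :
    ∃ (F : X → Y) (G : Y → X), IsPI μ ν (⋃ i, C i) (⋃ i, D i) F G ∧ ∀ i, EqOn F (f i) (C i) := by
  obtain ⟨F, Fm, hF⟩ := exists_measurable_piecewise C hC f (fun i => (h i).fm) (by
    intro i j hij x hx
    exact ((disjoint_left.1 (dC hij)) hx.1 hx.2).elim)
  obtain ⟨G, Gm, hG⟩ := exists_measurable_piecewise D hD g (fun i => (h i).gm) (by
    intro i j hij x hx
    exact ((disjoint_left.1 (dD hij)) hx.1 hx.2).elim)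
  refine ⟨F, G, ⟨Fm, Gm, ?_, ?_, ?_, ?_, ?_⟩, hF⟩
  · intro x hx
    obtain ⟨i, hi⟩ := mem_iUnion.1 hx
    rw [hF i hi]
    exact mem_iUnion.2 ⟨i, (h i).fC hi⟩
  · intro x hx
    obtain ⟨i, hi⟩ := mem_iUnion.1 hx
    rw [hG i hi]
    exact mem_iUnion.2 ⟨i, (h i).gD hi⟩
  · intro x hx
    obtain ⟨i, hi⟩ := mem_iUnion.1 hx
    rw [hF i hi, hG i ((h i).fC hi), (h i).gf x hi]
  · intro x hx
    obtain ⟨i, hi⟩ := mem_iUnion.1 hx
    rw [hG i hi, hF i ((h i).gD hi), (h i).fg x hi]
  · intro E hE hED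
    have e1 : (⋃ i, C i) ∩ F ⁻¹' E = ⋃ i, (C i ∩ (f i) ⁻¹' (E ∩ D i)) := by
      ext x
      constructor
      · rintro ⟨hx, hx1⟩
        obtain ⟨i, hi⟩ := mem_iUnion.1 hx
        refine mem_iUnion.2 ⟨i, hi, ?_⟩
        rw [mem_preimage, hF i hi] at hx1
        exact ⟨hx1, (h i).fC hi⟩
      · intro hx
        obtain ⟨i, hi, hi2⟩ := mem_iUnion.1 hx
        refine ⟨mem_iUnion.2 ⟨i, hi⟩, ?_⟩
        rw [mem_preimage, hF i hi]
        exact hi2.1
    have e2 : E = ⋃ i, (E ∩ D i) := by
      rw [← inter_iUnion]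
      exact (inter_eq_left.2 hED).symm
    rw [e1, measure_iUnion]
    · conv_rhs => rw [e2]
      rw [measure_iUnion]
      · congr 1
        ext i
        exact (h i).mp _ (hE.inter (hD i)) inter_subset_right
      · intro i j hij
        exact (dD hij).mono inter_subset_right inter_subset_right
      · intro i
        exact hE.inter (hD i)
    · intro i j hij
      exact (dC hij).mono inter_subset_left inter_subset_left
    · intro i
      exact (hC i).inter ((h i).fm (hE.inter (hD i)))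

/-- a measure preserving automorphism restricts to a partial isomorphism -/
theorem isPI_of_equiv (T : X ≃ᵐ X) (hT : MeasurePreserving T μ μ) (C : Set X) :
    IsPI μ μ C (T.symm ⁻¹' C) T T.symm where
  fm := T.measurable
  gm := T.symm.measurable
  fC := by intro x hx; simpa using hx
  gD := by intro x hx; exact hx
  gf := by intro x _; simp
  fg := by intro x _; simp
  mp := by
    intro E hE hED
    rw [← hT.measure_preimage hE.nullMeasurableSet]
    congr 1
    ext x
    constructor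
    · rintro ⟨_, h⟩; exact h
    · intro hx
      refine ⟨?_, hx⟩
      have := hED hx
      simpa using this

theorem isPI_id (C : Set X) : IsPI μ μ C C id id where
  fm := measurable_id
  gm := measurable_id
  fC := fun x hx => hx
  gD := fun x hx => hx
  gf := fun x _ => rfl
  fg := fun x _ => rfl
  mp := by
    intro E _ hEC
    rw [preimage_id, inter_eq_right.2 hEC]

end Pool.Agent.H74R3
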