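import Pool.Agent.H74R3.Marker

open MeasureTheory Set Filter Topology
open scoped ENNReal

namespace Pool.Agent.H74R3

variable {X : Type*} [MeasurableSpace X] {μ : Measure X}

theorem image_iterate (T : X ≃ᵐ X) (n : ℕ) (A : Set X) : (T^[n]) '' A = zp T (-n) ⁻¹' A := by
  ext x
  constructor
  · rintro ⟨y, hy, rfl⟩
    rw [mem_preimage, ← zp_nat, zp_neg_zp]
    exact hy
  · intro hx
    refine ⟨zp T (-n) x, hx, ?_⟩
    rw [← zp_nat, zp_zp_neg]

theorem measure_image_inter {T : X ≃ᵐ X} (hT : MeasurePreserving T μ μ) (n : ℕ) {A B : Set X}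
    (hA : MeasurableSet A) (hB : MeasurableSet B) :
    μ ((T^[n]) '' A ∩ B) = μ (A ∩ zp T n ⁻¹' B) := by
  rw [image_iterate, ← measure_zp_preimage hT n ((measurable_zp T (-n) hA).inter hB)]
  congr 1
  ext x
  simp only [mem_preimage, mem_inter_iff]
  rw [zp_neg_zp]

/-- `T` is mixing (zero type) -/
def IsMixing (μ : Measure X) (T : X ≃ᵐ X) : Prop :=
  ∀ A B : Set X, MeasurableSet A → MeasurableSet B → μ A < ∞ → μ B < ∞ →
    Tendsto (fun n : ℕ => μ ((T^[n]) '' A ∩ B)) atTop (𝓝 0)

theorem IsMixing.tendsto {T : X ≃ᵐ X} (h : IsMixing μ T) (hT : MeasurePreserving T μ μ)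
    {A B : Set X} (hA : MeasurableSet A) (hB : MeasurableSet B) (hA' : μ A < ∞) (hB' : μ B < ∞) :
    Tendsto (fun n : ℕ => μ (A ∩ zp T n ⁻¹' B)) atTop (𝓝 0) := by
  have := h A B hA hB hA' hB'
  refine this.congr (fun n => measure_image_inter hT n hA hB)

theorem IsMixing.aperiodic [StandardBorelSpace X] [SigmaFinite μ] {T : X ≃ᵐ X}
    (h : IsMixing μ T) (hT : MeasurePreserving T μ μ) (k : ℕ) (hk : 0 < k) :
    μ {x | zp T k x = x} = 0 := by
  by_contra hcon
  have hP : MeasurableSet {x | zp T k x = x} := measurableSet_eq_fun (measurable_zp T k) measurable_id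
  obtain ⟨A, hA, hAP, hA0, hA1⟩ := Measure.exists_subset_measure_lt_top (μ := μ) hP
    (pos_iff_ne_zero.2 hcon)
  have h1 := (h.tendsto hT hA hA hA1 hA1)
  have h2 : Tendsto (fun n : ℕ => k * n) atTop atTop :=
    tendsto_id.const_mul_atTop' hk
  have h3 := h1.comp h2
  have h4 : ∀ n : ℕ, ∀ x ∈ A, zp T ((k * n : ℕ) : ℤ) x = x := by
    intro n x hx
    induction n with
    | zero => simp [zp_zero]
    | succ n ih =>
      have : ((k * (n + 1) : ℕ) : ℤ) = ((k * n : ℕ) : ℤ) + (k : ℤ) := by push_cast; ring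
      rw [this, zp_add]
      have h5 : zp T (k : ℤ) x = x := hAP hx
      rw [h5, ih]
  have h5 : ((fun n : ℕ => μ (A ∩ zp T n ⁻¹' A)) ∘ fun n : ℕ => k * n) = fun _ => μ A := by
    ext n
    simp only [Function.comp]
    congr 1
    ext x
    constructor
    · rintro ⟨hx, _⟩; exact hx
    · intro hx
      refine ⟨hx, ?_⟩
      rw [mem_preimage, h4 n x hx]
      exact hx
  rw [h5] at h3
  have := tendsto_nhds_unique h3 tendsto_const_nhds
  exact hA0.ne this

theorem marker_infinite {T : X ≃ᵐ X} (hT : MeasurePreserving T μ μ) (hμ : μ univ = ∞)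
    {B : Set X} (hB : MeasurableSet B) {H : ℕ}
    (hcov : ∀ᵐ x ∂μ, ∃ h : ℤ, |h| < H ∧ zp T h x ∈ B) : μ B = ∞ := by
  by_contra hcon
  have h1 : μ univ ≤ ∑ h ∈ Finset.Ioo (-(H : ℤ)) H, μ (zp T h ⁻¹' B) := by
    calc μ univ ≤ μ (⋃ h ∈ Finset.Ioo (-(H : ℤ)) H, zp T h ⁻¹' B) := by
          apply measure_mono_ae
          filter_upwards [hcov] with x hx _
          obtain ⟨h, h1, h2⟩ := hx
          refine mem_iUnion₂.2 ⟨h, ?_, h2⟩
          rw [Finset.mem_Ioo]
          exact abs_lt.1 h1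
      _ ≤ _ := measure_biUnion_finset_le _ _
  rw [hμ] at h1
  have h2 : ∑ h ∈ Finset.Ioo (-(H : ℤ)) H, μ (zp T h ⁻¹' B) < ∞ := by
    apply ENNReal.sum_lt_top.2
    intro h _
    rw [measure_zp_preimage hT h hB]
    exact lt_top_iff_ne_top.2 hcon
  exact absurd h2 (not_lt.2 h1)

theorem exists_sparse [StandardBorelSpace X] [Nonempty X] [SigmaFinite μ] [NullSingletonClass μ]
    {T : X ≃ᵐ X} (hT : MeasurePreserving T μ μ) (hmix : IsMixing μ T) (hμ : μ univ = ∞)
    {c : ℝ≥0∞} (hc : c < ∞) {δ : ℝ≥0∞} (hδ : 0 < δ) (L : ℕ) :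
    ∃ E : Set X, MeasurableSet E ∧ μ E = c ∧
      (∀ x ∈ E, ∀ h : ℕ, 0 < h → h < L → zp T h x ∉ E) ∧
      ∀ m : ℕ, 0 < m → μ (E ∩ zp T m ⁻¹' E) ≤ δ := by
  have hδ4 : δ / 4 ≠ 0 := by
    simp [hδ.ne']
  obtain ⟨N, hN⟩ := ENNReal.exists_nat_gt (r := c / (δ / 4)) (ENNReal.div_lt_top hc.ne hδ4).ne
  have hN0 : (N : ℝ≥0∞) ≠ 0 := (lt_of_le_of_lt zero_le hN).ne'
  have hNt : (N : ℝ≥0∞) ≠ ∞ := ENNReal.natCast_ne_top N
  set κ := c / N with hκ
  have hcκ : (N : ℝ≥0∞) * κ = c := ENNReal.mul_div_cancel hN0 hNt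
  have hκt : κ < ∞ := ENNReal.div_lt_top hc.ne hN0
  have hκδ : κ ≤ δ / 4 := by
    apply ENNReal.div_le_of_le_mul
    by_cases hδt : δ / 4 = ∞
    · rw [hδt, ENNReal.top_mul hN0]; exact le_top
    · rw [mul_comm]
      exact (ENNReal.div_le_iff hδ4 hδt).1 hN.le
  have key : ∀ j : ℕ, ∃ E : Set X, MeasurableSet E ∧ μ E = j * κ ∧
      (∀ x ∈ E, ∀ h : ℕ, 0 < h → h < L → zp T h x ∉ E) ∧
      ∀ m : ℕ, 0 < m → μ (E ∩ zp T m ⁻¹' E) ≤ δ / 2 + (κ + κ) := by
    intro j
    induction j with
    | zero =>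
      refine ⟨∅, MeasurableSet.empty, by simp, fun x hx => hx.elim, ?_⟩
      intro m _
      simp
    | succ j ih =>
      obtain ⟨E, hE, hEμ, hEsep, hEcor⟩ := ih
      have hEfin : μ E < ∞ := by
        rw [hEμ]; exact ENNReal.mul_lt_top (ENNReal.natCast_lt_top j) hκt
      have hδ2 : 0 < δ / 2 := ENNReal.half_pos hδ.ne'
      have hev := (hmix.tendsto hT hE hE hEfin hEfin).eventually (gt_mem_nhds hδ2)
      obtain ⟨M, hM⟩ := eventually_atTop.1 hev
      set M' := max M L + 1 with hM'
      obtain ⟨B, hB, hBsep, hBcov⟩ := exists_marker (μ := μ) T (hmix.aperiodic hT) M' (by omega)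
      have hBinf : μ B = ∞ := marker_infinite hT hμ hB hBcov
      set G : Set X := ⋃ h ∈ Finset.Ioo (-(M' : ℤ)) M', zp T h ⁻¹' E with hG
      have hGm : MeasurableSet G := by
        rw [hG]
        exact Finset.measurableSet_biUnion _ (fun h _ => measurable_zp T h hE)
      have hGfin : μ G < ∞ := by
        refine lt_of_le_of_lt (measure_biUnion_finset_le _ _) ?_
        apply ENNReal.sum_lt_top.2
        intro h _
        rw [measure_zp_preimage hT h hE]
        exact hEfin
      have hBG : μ (B \ G) = ∞ := by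
        by_contra hcon
        have h1 : μ B ≤ μ (B \ G) + μ G := by
          calc μ B ≤ μ ((B \ G) ∪ G) := by
                apply measure_mono
                intro x hx
                by_cases hxG : x ∈ G
                · right; exact hxG
                · left; exact ⟨hx, hxG⟩
            _ ≤ _ := measure_union_le _ _
        rw [hBinf] at h1
        have h2 : μ (B \ G) + μ G < ∞ := ENNReal.add_lt_top.2 ⟨lt_top_iff_ne_top.2 hcon, hGfin⟩
        exact absurd h2 (not_lt.2 h1)
      obtain ⟨F, hFs, hF, hFμ⟩ := exists_subset_measure_eq (μ := μ) (hB.diff hGm)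
        (c := κ) (by rw [hBG]; exact hκt)
      have hGmem : ∀ (h : ℤ) (x : X), |h| < M' → zp T h x ∈ E → x ∈ G := by
        intro h x hh hx
        rw [hG]
        refine mem_iUnion₂.2 ⟨h, ?_, hx⟩
        rw [Finset.mem_Ioo]
        exact abs_lt.1 hh
      -- cross terms
      have hEF : ∀ x ∈ E, ∀ h : ℕ, h < M' → zp T h x ∉ F := by
        intro x hx h hh hy
        apply (hFs hy).2
        apply hGmem (-(h : ℤ))
        · rw [abs_neg, Nat.abs_cast]; exact_mod_cast hh
        · rw [zp_neg_zp]; exact hx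
      have hFE : ∀ x ∈ F, ∀ h : ℕ, h < M' → zp T h x ∉ E := by
        intro x hx h hh hy
        apply (hFs hx).2
        apply hGmem (h : ℤ)
        · rw [Nat.abs_cast]; exact_mod_cast hh
        · exact hy
      have hFF : ∀ x ∈ F, ∀ h : ℕ, 0 < h → h < M' → zp T h x ∉ F := by
        intro x hx h h0 hh hy
        exact hBsep x (hFs hx).1 h h0 hh (hFs hy).1
      refine ⟨E ∪ F, hE.union hF, ?_, ?_, ?_⟩
      · rw [measure_union _ hF, hEμ, hFμ]
        · push_cast; ring
        · rw [disjoint_left]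
          intro x hx hxF
          have := hEF x hx 0 (by omega)
          rw [Nat.cast_zero, zp_zero] at this
          exact this hxF
      · intro x hx h h0 h1 hy
        have hLM : h < M' := by
          have := le_max_right M L
          omega
        rcases hx with hx | hx
        · rcases hy with hy | hy
          · exact hEsep x hx h h0 h1 hy
          · exact hEF x hx h hLM hy
        · rcases hy with hy | hy
          · exact hFE x hx h hLM hy
          · exact hFF x hx h h0 hLM hy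
      · intro m hm
        by_cases hmM : m < M'
        · refine le_trans (measure_mono ?_) (hEcor m hm)
          rintro x ⟨hx, hy⟩
          rcases hx with hx | hx
          · rcases hy with hy | hy
            · exact ⟨hx, hy⟩
            · exact (hEF x hx m hmM hy).elim
          · rcases hy with hy | hy
            · exact (hFE x hx m hmM hy).elim
            · exact (hFF x hx m hm hmM hy).elim
        · have hmM2 : M ≤ m := by
            have := le_max_left M L
            omega
          have h1 : (E ∪ F) ∩ zp T m ⁻¹' (E ∪ F) ⊆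
              (E ∩ zp T m ⁻¹' E) ∪ (F ∪ zp T m ⁻¹' F) := by
            rintro x ⟨hx, hy⟩
            rcases hx with hx | hx
            · rcases hy with hy | hy
              · left; exact ⟨hx, hy⟩
              · right; right; exact hy
            · right; left; exact hx
          calc μ ((E ∪ F) ∩ zp T m ⁻¹' (E ∪ F)) ≤ _ := measure_mono h1
            _ ≤ μ (E ∩ zp T m ⁻¹' E) + μ (F ∪ zp T m ⁻¹' F) := measure_union_le _ _
            _ ≤ δ / 2 + (μ F + μ (zp T m ⁻¹' F)) :=
                add_le_add (hM m hmM2).le (measure_union_le _ _)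
            _ = δ / 2 + (κ + κ) := by rw [measure_zp_preimage hT m hF, hFμ]
  obtain ⟨E, hE, hEμ, hEsep, hEcor⟩ := key N
  refine ⟨E, hE, by rw [hEμ, hcκ], hEsep, ?_⟩
  intro m hm
  refine le_trans (hEcor m hm) ?_
  calc δ / 2 + (κ + κ) ≤ δ / 2 + (δ / 4 + δ / 4) := by gcongr
    _ = δ / 2 + δ / 2 := by
        congr 1
        rw [← two_mul]
        have h4 : (4 : ℝ≥0∞) = 2 * 2 := by norm_num
        rw [h4, ← mul_div_assoc, ENNReal.mul_div_mul_left _ _ (by norm_num) (by norm_num)]
    _ = δ := ENNReal.add_halves δ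

end Pool.Agent.H74R3
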